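import Pool.Agent.Work.MP_f3d170_co_h78.Interface
import Pool.Agent.Work.MP_f3d170_co_helper60.Lower
import Pool.Agent.Work.MP_f3d170_co_helper60b.Part

set_option autoImplicit false

open Set Matroid
open Pool.Agent.Work.MP_f3d170_co_h45
open Pool.Agent.Work.MP_f3d170_co_helper60
open Pool.Agent.Work.MP_f3d170_co_helper60b

namespace Pool.Agent.Work.MP_f3d170_co_h78

theorem LOWER_ncard (n k : ℕ) : {X : Set (Fin n) | X.ncard = k}.ncard = n.choose k := by
  classical
  have h1 : {X : Set (Fin n) | X.ncard = k} =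
      (fun F : Finset (Fin n) => (F : Set (Fin n))) ''
        ((Finset.univ.powersetCard k : Finset (Finset (Fin n))) : Set (Finset (Fin n))) := by
    ext X
    constructor
    · intro hX
      refine ⟨X.toFinset, ?_, by simp⟩
      rw [Finset.mem_coe, Finset.mem_powersetCard]
      refine ⟨Finset.subset_univ _, ?_⟩
      rw [← Set.ncard_eq_toFinset_card']
      exact hX
    · rintro ⟨F, hF, rfl⟩
      rw [Finset.mem_coe, Finset.mem_powersetCard] at hF
      show (F : Set (Fin n)).ncard = k
      rw [Set.ncard_coe_finset]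
      exact hF.2
  rw [h1, Set.ncard_image_of_injective _ Finset.coe_injective, Set.ncard_coe_finset,
    Finset.card_powersetCard, Finset.card_univ, Fintype.card_fin]

theorem p_LOWER : Stmt_LOWER := by
  classical
  intro n j hj
  set g := n.choose (j + 1) / n with hg
  have hn : 0 < n := by omega
  obtain ⟨ι, hinj, hmem, hst⟩ := exists_stable (n := n) (s := j) hn
    (𝒳 := {X : Set (Fin n) | X.ncard = j + 1}) (fun X hX => hX) (g := g) (by
      rw [LOWER_ncard]
      exact Nat.mul_div_le _ _)
  have hcard : ∀ k, (ι k).ncard = j + 1 := fun k => hmem k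
  have hstab : ∀ S : Set (Fin g), Stable (ι '' S) := by
    rintro S _ ⟨k, -, rfl⟩ _ ⟨l, -, rfl⟩ b hb
    apply hst
    have h1 : (ι k \ ι l).ncard ≤ 1 := by
      calc (ι k \ ι l).ncard ≤ ({b} : Set (Fin n)).ncard := Set.ncard_le_ncard hb (Set.toFinite _)
        _ = 1 := Set.ncard_singleton b
    have h2 := Set.ncard_inter_add_ncard_sdiff_eq_ncard (ι k) (ι l) (Set.toFinite _)
    rw [hcard k] at h2
    omega
  set Φ : Set (Fin g) → RankMatroid n (j + 1) := fun S =>
    ⟨SP (by omega) hj (hstab S), rfl, SP_eRank (by omega) hj (hstab S)⟩ with hΦ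
  have hΦinj : Function.Injective Φ := by
    intro S S' hSS
    have h1 : SP (by omega) hj (hstab S) = SP (by omega) hj (hstab S') := congrArg Subtype.val hSS
    have h2 : ∀ B : Set (Fin n), (B.ncard = j + 1 ∧ B ∉ ι '' S) ↔
        (B.ncard = j + 1 ∧ B ∉ ι '' S') := by
      intro B
      rw [← SP_isBase (by omega) hj (hstab S) B, ← SP_isBase (by omega) hj (hstab S') B, h1]
    ext k
    have h3 := h2 (ι k)
    rw [hinj.mem_set_image, hinj.mem_set_image] at h3
    have h4 := hcard k
    tauto
  calc 2 ^ g = Nat.card (Set (Fin g)) := by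
        rw [Nat.card_eq_fintype_card, Fintype.card_set, Fintype.card_fin]
    _ ≤ Nat.card (RankMatroid n (j + 1)) := Nat.card_le_card_of_injective Φ hΦinj

end Pool.Agent.Work.MP_f3d170_co_h78
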