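import Mathlib
import Pool.Agent.Work.MP_f3d170_co_h45.Final

/-!
# Bases versus circuits beyond half rank (MP_f3d170_co, note 2894)

There are `c > 0`, `r₀` with `B(n,r) > C(n,r)` for `r ≥ r₀` and `n ≤ 2 r + c r / log r`.

Everything is done on the dual side: matroids `N` of rank `j + 1` on `Fin n`, with
`h = (flatsOf N j).ncard` hyperplanes and `b = numBases N` bases.
-/

set_option autoImplicit false

open Set Matroid
open Pool.Agent.Work.MP_f3d170_co_h45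

namespace Pool.Agent.Work.MP_f3d170_co_h78

section Defs

variable {n : ℕ}

/-- the number of bases `B` with `cl (B \ {x}) = H` for some `x ∈ B` -/
noncomputable def wt (N : Matroid (Fin n)) (H : Set (Fin n)) : ℕ :=
  {B | N.IsBase B ∧ ∃ x ∈ B, N.closure (B \ {x}) = H}.ncard

/-- the number of bases of the flat `H` -/
noncomputable def nb (N : Matroid (Fin n)) (H : Set (Fin n)) : ℕ :=
  {I | N.Indep I ∧ N.closure I = H}.ncard

/-- the elements of `H` which are not in all bases of `H` -/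
def core (N : Matroid (Fin n)) (H : Set (Fin n)) : Set (Fin n) :=
  {x | x ∈ H ∧ ∃ I, N.Indep I ∧ N.closure I = H ∧ x ∉ I}

/-- dependent hyperplanes of large weight -/
def D1 (N : Matroid (Fin n)) (j W : ℕ) : Set (Set (Fin n)) :=
  {H | H ∈ flatsOf N j ∧ j + 1 ≤ H.ncard ∧ W ≤ wt N H}

/-- large hyperplanes -/
def D2 (N : Matroid (Fin n)) (j u : ℕ) : Set (Set (Fin n)) :=
  {H | H ∈ flatsOf N j ∧ j + 1 + u ≤ H.ncard}

/-- the cores of the remaining dependent hyperplanes, with their ranks -/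
def D3 (N : Matroid (Fin n)) (j W u : ℕ) : Set (Set (Fin n) × ℕ) :=
  {p | ∃ H ∈ flatsOf N j, j + 1 ≤ H.ncard ∧ H.ncard < j + 1 + u ∧ wt N H < W ∧
    p = (core N H, j - (H \ core N H).ncard)}

/-- bad matroids: few loops and `k b < (k + 1) h` -/
def Bad (j l : ℕ) (N : RankMatroid n (j + 1)) : Prop :=
  n ≤ (nonloops N.1).ncard + l ∧ (j + 1) * numBases N.1 < (j + 2) * (flatsOf N.1 j).ncard

/-- the sum of `h` over the classes with exactly `m` non-loops -/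
noncomputable def lev {j : ℕ} (𝒩 : Finset (RankMatroid n (j + 1))) (m : ℕ) : ℕ :=
  ∑ M ∈ 𝒩 with (nonloops M.1).ncard = m, (flatsOf M.1 j).ncard

end Defs

/-- WGE. Every hyperplane has weight at least `m - j`, `m` the number of non-loops. This is the
first half of the proof of `bases_ge` in `Work/MP_f3d170_co_h45/Flats.lean` (copy it). -/
def Stmt_WGE : Prop := ∀ (n j : ℕ) (N : RankMatroid n (j + 1)), ∀ H ∈ flatsOf N.1 j,
  (nonloops N.1).ncard ≤ wt N.1 H + j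

/-- WSUM. A basis `B` counts for at most `j + 1` hyperplanes. (The sum is over a finite set.) -/
def Stmt_WSUM : Prop := ∀ (n j : ℕ) (N : RankMatroid n (j + 1)) (F : Finset (Set (Fin n))),
  ∑ H ∈ F, wt N.1 H ≤ (j + 1) * numBases N.1

/-- NB. `B ↦ (B ∩ H, the element of B outside H)`: `I ∪ {x}` for a basis `I` of `H` and `x ∉ H`. -/
def Stmt_NB : Prop := ∀ (n j : ℕ) (N : RankMatroid n (j + 1)), ∀ H ∈ flatsOf N.1 j,
  nb N.1 H * (n - H.ncard) ≤ wt N.1 H

/-- CORE. The core is small if `H` has few bases. Fix a basis `I₀` of `H`: every non-loop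
`y ∈ H \ I₀` gives a basis `insert y (I₀ \ {f})` (`exists_exchange` in h45/Flats), every
`x ∈ I₀ ∩ core` a basis `insert y (I₀ \ {x})` (exchange from a basis avoiding `x`); the former are
different for different `y`, the latter for different `x`, and all differ from `I₀`. -/
def Stmt_CORE : Prop := ∀ (n j : ℕ) (N : RankMatroid n (j + 1)), ∀ H ∈ flatsOf N.1 j,
  (core N.1 H).ncard + 2 + (nonloops N.1).ncard ≤ 2 * nb N.1 H + n

/-- CRK. All bases of `H` contain `H \ core`, so the core has rank `j - |H \ core|`. -/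
def Stmt_CRK : Prop := ∀ (n j : ℕ) (N : RankMatroid n (j + 1)), ∀ H ∈ flatsOf N.1 j,
  (H \ core N.1 H).ncard ≤ j ∧
  (∀ X : Set (Fin n), X ⊆ H → X.ncard = j + 1 →
    j - (H \ core N.1 H).ncard < (X ∩ core N.1 H).ncard) ∧
  (∀ X : Set (Fin n), N.1.Indep X →
    (X ∩ core N.1 H).ncard ≤ j - (H \ core N.1 H).ncard)

/-- DET (uses CRK). The code determines the matroid: a `(j+1)`-set `X` is not a basis iff it lies
in a member of `D1` or `D2` or has more than `p.2` elements in `p.1` for some `p ∈ D3`. -/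
def Stmt_DET : Prop := ∀ (n j W u : ℕ) (N N' : RankMatroid n (j + 1)),
  D1 N.1 j W = D1 N'.1 j W → D2 N.1 j u = D2 N'.1 j u → D3 N.1 j W u = D3 N'.1 j W u → N = N'

/-- HEAVY (uses WGE, WSUM). With `m` non-loops:
`|D1| (W - (m - j)) ≤ ∑ (wt H - (m - j)) ≤ (j+1) b - (m - j) h ≤ (2 j + 2 - m) h ≤ s h`,
and `h ≤ n.choose j` (every hyperplane is the closure of an independent `j`-set). -/
def Stmt_HEAVY : Prop := ∀ (n j W l s : ℕ) (N : RankMatroid n (j + 1)), Bad j l N →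
  2 * (j + 1) + l ≤ n + s → (D1 N.1 j W).ncard * (W - (n - j)) ≤ s * n.choose j

/-- BAD (uses DET, HEAVY, NB, CORE and `stmt_CNT` of `Work/MP_f3d170_co_helper44/TCNT.lean`).
Injection `N ↦ (D1, D2, D3)`; `|D1| ≤ a`, members of `D1` have at least `j + 1` elements; for a
light hyperplane `H` with `|H| < j + 1 + u` one has `n - |H| ≥ r - u + 1`, so `nb < y`, so
`|core| ≤ 2 (y - 1) - 2 + l ≤ v` and the rank `j - |H \ core|` is at most `|core| ≤ v`. -/
def Stmt_BAD : Prop := ∀ n j r W u v y l s a B : ℕ, n = r + (j + 1) → u ≤ r →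
  W ≤ (r - u + 1) * y → 2 * y + l ≤ v + 2 → 2 * (j + 1) + l ≤ n + s → n - j < W →
  s * n.choose j ≤ a * (W - (n - j)) → {H : Set (Fin n) | j + 1 ≤ H.ncard}.ncard ≤ a * B →
  1 ≤ B →
  {N : RankMatroid n (j + 1) | Bad j l N}.ncard ≤
    (3 * B) ^ a * 2 ^ ({H : Set (Fin n) | j + 1 + u ≤ H.ncard}.ncard +
      (v + 1) * {Z : Set (Fin n) | Z.ncard ≤ v}.ncard)

/-- LOWER. `exists_stable` (helper60b/Part.lean, with `s := j` and all `(j+1)`-sets) and `SP`,
`SP_isBase`, `SP_eRank` (helper60/Lower.lean) for all subfamilies. -/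
def Stmt_LOWER : Prop := ∀ n j : ℕ, j + 1 < n →
  2 ^ (n.choose (j + 1) / n) ≤ Nat.card (RankMatroid n (j + 1))

/-- CHAIN (from `chain_sum` of h45/DualSum.lean: `(m+1) lev m ≤ (m+1-j) lev (m+1)`). -/
def Stmt_CHAIN : Prop := ∀ (n j : ℕ) (𝒩 : Finset (RankMatroid n (j + 1))), IsTransversal 𝒩 →
  n ≤ 3 * j → ∀ d, d ≤ n → 3 ^ d * lev 𝒩 (n - d) ≤ 2 ^ d * lev 𝒩 n

/-- TAIL (uses CHAIN). Geometric series: `∑_{d > l} (2/3)^d ≤ 2 (2/3)^l`. -/
def Stmt_TAIL : Prop := ∀ (n j l : ℕ) (𝒩 : Finset (RankMatroid n (j + 1))), IsTransversal 𝒩 →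
  n ≤ 3 * j →
  3 ^ l * ∑ M ∈ 𝒩 with (nonloops M.1).ncard + l < n, (flatsOf M.1 j).ncard
      ≤ 2 * 2 ^ l * lev 𝒩 n ∧
  𝒩.card ≤ 3 * lev 𝒩 n

/-- FIN (uses TAIL and `card_rankMatroid_le` of helper60/Assemble.lean). With `k = j + 1`:
for a matroid which has at most `l` loops and is not bad `k (b - h) ≥ h`; for the others use
`b ≥ 0` and, for the bad ones, `h ≤ 2 ^ n`:
`k ∑ (b - h) ≥ lev n - (k + 1) 2^n β - k ∑_{m + l < n} h > 0`. -/
def Stmt_FIN : Prop := ∀ (n j l β : ℕ) (𝒩 : Finset (RankMatroid n (j + 1))), IsTransversal 𝒩 →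
  n ≤ 3 * j → {N : RankMatroid n (j + 1) | Bad j l N}.ncard ≤ β →
  8 * (j + 1) * 2 ^ l ≤ 3 ^ l →
  12 * (j + 2) * 2 ^ n * β * n.factorial < Nat.card (RankMatroid n (j + 1)) →
  ∑ M ∈ 𝒩, (flatsOf M.1 j).ncard < ∑ M ∈ 𝒩, numBases M.1

/-- UPS. Sets with at least `k ≥ n / 2` elements. -/
def Stmt_UPS : Prop := ∀ n k : ℕ, 1 ≤ k → n ≤ 2 * k →
  {H : Set (Fin n) | k ≤ H.ncard}.ncard ≤ n * n.choose k

/-- LOWS. Few sets with at most `4 w + 7` elements: `C(n,i) ≤ (2/3)^(6w-i) C(n,6w)` for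
`i ≤ 6 w`, since `(n - i)/(i + 1) ≥ 3/2` for `i < 6 w`; and `C(n,6w) ≤ C(n,r)` for
`6 w ≤ r ≤ n/2`. Also `C(n,r)` itself is large. -/
def Stmt_LOWS : Prop := ∀ n w r : ℕ, 4 ≤ w → 8 * w ≤ r → 2 * r + 1 ≤ n →
  3 ^ (2 * w - 7) * {Z : Set (Fin n) | Z.ncard ≤ 4 * w + 7}.ncard
      ≤ (4 * w + 8) * (2 ^ (2 * w - 7) * n.choose r) ∧
  3 ^ (6 * w) ≤ 2 ^ (6 * w) * n.choose r

end Pool.Agent.Work.MP_f3d170_co_h78
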