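import Pool.Agent.Work.MP_f3d170_co_h78.Interface

set_option autoImplicit false

open Set Matroid
open Pool.Agent.Work.MP_f3d170_co_h45

namespace Pool.Agent.Work.MP_f3d170_co_h78

lemma NB_isBase {n j : ℕ} (N : RankMatroid n (j + 1)) {B : Set (Fin n)} (hB : N.1.Indep B)
    (hc : B.ncard = j + 1) : N.1.IsBase B := by
  refine hB.isBase_of_eRk_ge (Set.toFinite _) ?_
  rw [hB.eRk_eq_encard, N.2.2, ← (Set.toFinite B).cast_ncard_eq, hc]

lemma NB_ncard {n j : ℕ} {N : Matroid (Fin n)} {H I : Set (Fin n)} (hH : H ∈ flatsOf N j)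
    (hI : N.Indep I) (hc : N.closure I = H) : I.ncard = j := by
  obtain ⟨J, hJ, hJc, hJH⟩ := hH
  have h1 : N.IsBasis I H := by rw [← hc]; exact hI.isBasis_closure
  have h2 : N.IsBasis J H := by rw [← hJH]; exact hJ.isBasis_closure
  rw [← hJc]; exact ncard_eq_of_isBasis h1 h2

theorem stmt_NB : Stmt_NB := by
  intro n j N H hH
  have hcard : nb N.1 H * (n - H.ncard)
      = ({I | N.1.Indep I ∧ N.1.closure I = H} ×ˢ (Hᶜ : Set (Fin n))).ncard := by
    rw [Set.ncard_prod, Set.ncard_compl, Nat.card_fin, nb]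
  rw [hcard, wt]
  have hsub : ∀ I, N.1.Indep I → N.1.closure I = H → I ⊆ H := fun I hI hc =>
    hc ▸ N.1.subset_closure I hI.subset_ground
  refine Set.ncard_le_ncard_of_injOn (fun p : Set (Fin n) × Fin n => insert p.2 p.1) ?_ ?_
    (Set.toFinite _)
  · rintro ⟨I, x⟩ ⟨⟨hI, hc⟩, hx⟩
    have hx' : x ∉ H := hx
    have hxI : x ∉ I := fun h => hx' (hsub I hI hc h)
    have hi : N.1.Indep (insert x I) := by
      rw [hI.insert_indep_iff_of_notMem hxI, hc]
      exact ⟨by rw [N.2.1]; exact Set.mem_univ _, hx'⟩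
    refine ⟨NB_isBase N hi ?_, x, Set.mem_insert _ _, ?_⟩
    · rw [Set.ncard_insert_of_notMem hxI (Set.toFinite _), NB_ncard hH hI hc]
    · rw [Set.insert_sdiff_self_of_notMem hxI, hc]
  · rintro ⟨I, x⟩ ⟨⟨hI, hc⟩, hx⟩ ⟨J, y⟩ ⟨⟨hJ, hd⟩, hy⟩ hxy
    have hx' : x ∉ H := hx
    have hy' : y ∉ H := hy
    simp only at hxy
    have h1 : x = y := by
      have : x ∈ insert y J := by rw [← hxy]; exact Set.mem_insert _ _
      rcases this with h | h
      · exact h
      · exact absurd (hsub J hJ hd h) hx'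
    subst h1
    have h2 : I = J := by
      have e1 : (insert x I) \ {x} = I :=
        Set.insert_sdiff_self_of_notMem (fun h => hx' (hsub I hI hc h))
      have e2 : (insert x J) \ {x} = J :=
        Set.insert_sdiff_self_of_notMem (fun h => hx' (hsub J hJ hd h))
      rw [← e1, ← e2, hxy]
    rw [h2]

end Pool.Agent.Work.MP_f3d170_co_h78
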