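import Pool.Agent.Work.MP_f3d170_co_h78.Interface

/-!
# WGE: every hyperplane has weight at least `m - j`
-/

set_option autoImplicit false

open Set Matroid
open Pool.Agent.Work.MP_f3d170_co_h45

namespace Pool.Agent.Work.MP_f3d170_co_h78

theorem stmt_WGE : Stmt_WGE := by
  classical
  intro n j N H hH
  obtain ⟨N, hE, hr⟩ := N
  simp only at hH ⊢
  have hbc : ∀ B, N.IsBase B → B.ncard = j + 1 := by
    intro B hB
    have h := hB.encard_eq_eRank
    rw [hr] at h
    simp only [Set.ncard, h]
    rfl
  have hbase : ∀ B, N.Indep B → B.ncard = j + 1 → N.IsBase B := by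
    intro B hB hc
    refine hB.isBase_of_eRk_ge (Set.toFinite _) ?_
    rw [hB.eRk_eq_encard, hr, ← (Set.toFinite B).cast_ncard_eq, hc]
  have hbneq : ∀ I, N.Indep I → I.ncard = j → ∃ x, x ∉ N.closure I := by
    intro I hI hc
    by_contra hcon
    push Not at hcon
    have : N.IsBase I := by
      refine hI.isBase_of_ground_subset_closure ?_
      intro x _; exact hcon x
    have := hbc I this
    omega
  obtain ⟨I, hI, hIc, rfl⟩ := hH
  obtain ⟨x₀, hx₀⟩ := hbneq I hI hIc
  have hIn : I ⊆ nonloops N := fun x hx => hI.isNonloop_of_mem hx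
  have hc : (nonloops N).ncard - j = (nonloops N \ I).ncard := by
    rw [Set.ncard_sdiff hIn (Set.toFinite _), hIc]
  have hmain : (nonloops N \ I).ncard ≤ wt N (N.closure I) := by
    -- exchange element
    have key : ∀ y, ∃ f, y ∈ N.closure I → y ∉ I → N.IsNonloop y →
        f ∈ I ∧ N.Indep (insert y (I \ {f})) ∧ N.closure (insert y (I \ {f})) = N.closure I := by
      intro y
      by_cases h : y ∈ N.closure I ∧ y ∉ I ∧ N.IsNonloop y
      · obtain ⟨f, hf⟩ := exists_exchange hI h.1 h.2.1 h.2.2
        exact ⟨f, fun _ _ _ => hf⟩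
      · exact ⟨x₀, fun h1 h2 h3 => absurd ⟨h1, h2, h3⟩ h⟩
    choose f hf using key
    have hIcl : I ⊆ N.closure I := N.subset_closure I hI.subset_ground
    have hx₀I : x₀ ∉ I := fun h => hx₀ (hIcl h)
    unfold wt
    refine Set.ncard_le_ncard_of_injOn
      (fun y => if y ∈ N.closure I then insert x₀ (insert y (I \ {f y})) else insert y I) ?_ ?_
      (Set.toFinite _)
    · intro y hy
      obtain ⟨hyn, hyI⟩ := hy
      simp only [Set.mem_ofPred_eq]
      by_cases hycl : y ∈ N.closure I
      · rw [if_pos hycl]
        obtain ⟨hfI, hind, hcl⟩ := hf y hycl hyI hyn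
        set I' := insert y (I \ {f y}) with hI'
        have hx₀cl : x₀ ∉ N.closure I' := by rw [hcl]; exact hx₀
        have hx₀I' : x₀ ∉ I' := fun h => hx₀cl (N.subset_closure I' hind.subset_ground h)
        have hI'c : I'.ncard = j := by
          rw [hI', Set.ncard_insert_of_notMem (fun h => hyI h.1) (Set.toFinite _),
            Set.ncard_sdiff_singleton_of_mem hfI]
          have : 0 < I.ncard := (Set.ncard_pos (Set.toFinite _)).2 ⟨f y, hfI⟩
          omega
        refine ⟨hbase _ ?_ ?_, x₀, Set.mem_insert _ _, ?_⟩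
        · rw [hind.insert_indep_iff_of_notMem hx₀I']
          exact ⟨hE ▸ Set.mem_univ _, hx₀cl⟩
        · rw [Set.ncard_insert_of_notMem hx₀I' (Set.toFinite _), hI'c]
        · rw [Set.insert_sdiff_self_of_notMem hx₀I', hcl]
      · rw [if_neg hycl]
        refine ⟨hbase _ ?_ ?_, y, Set.mem_insert _ _, ?_⟩
        · rw [hI.insert_indep_iff_of_notMem hyI]
          exact ⟨hE ▸ Set.mem_univ _, hycl⟩
        · rw [Set.ncard_insert_of_notMem hyI (Set.toFinite _), hIc]
        · rw [Set.insert_sdiff_self_of_notMem hyI]
    · intro y hy z hz hyz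
      obtain ⟨hyn, hyI⟩ := hy
      obtain ⟨hzn, hzI⟩ := hz
      simp only at hyz
      by_cases hycl : y ∈ N.closure I <;> by_cases hzcl : z ∈ N.closure I
      · rw [if_pos hycl, if_pos hzcl] at hyz
        have h1 : y ∈ insert x₀ (insert z (I \ {f z})) := by
          rw [← hyz]; exact Or.inr (Or.inl rfl)
        rcases h1 with h | h | h
        · exact absurd (h ▸ hycl) hx₀
        · exact h
        · exact absurd h.1 hyI
      · rw [if_pos hycl, if_neg hzcl] at hyz
        have h1 : y ∈ insert z I := by
          rw [← hyz]; exact Or.inr (Or.inl rfl)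
        rcases h1 with h | h
        · exact h
        · exact absurd h hyI
      · rw [if_neg hycl, if_pos hzcl] at hyz
        have h1 : z ∈ insert y I := by
          rw [hyz]; exact Or.inr (Or.inl rfl)
        rcases h1 with h | h
        · exact h.symm
        · exact absurd h hzI
      · rw [if_neg hycl, if_neg hzcl] at hyz
        have h1 : y ∈ insert z I := by
          rw [← hyz]; exact Or.inl rfl
        rcases h1 with h | h
        · exact h
        · exact absurd h hyI
  omega

end Pool.Agent.Work.MP_f3d170_co_h78
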