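import Pool.Agent.Work.MP_f3d170_co_h78.Interface

/-!
# Block WSUM: a basis counts for at most `j + 1` hyperplanes
-/

set_option autoImplicit false

open Set Matroid
open Pool.Agent.Work.MP_f3d170_co_h45

namespace Pool.Agent.Work.MP_f3d170_co_h78

theorem stmt_WSUM : Stmt_WSUM := by
  classical
  intro n j N F
  have hfin : {B | N.1.IsBase B}.Finite := Set.toFinite _
  have hbc : ∀ B, N.1.IsBase B → B.ncard = j + 1 := by
    intro B hB
    have h := hB.encard_eq_eRank
    rw [N.2.2] at h
    simp only [Set.ncard, h]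
    rfl
  set R : Set (Fin n) → Set (Fin n) → Prop :=
    fun H B => ∃ x ∈ B, N.1.closure (B \ {x}) = H with hR
  have h1 : ∀ H ∈ F, wt N.1 H = (hfin.toFinset.bipartiteAbove R H).card := by
    intro H _
    unfold wt
    rw [Set.ncard_eq_toFinset_card _ (Set.toFinite _)]
    congr 1
    ext B
    simp [Finset.mem_bipartiteAbove, hR]
  rw [Finset.sum_congr rfl h1, Finset.sum_card_bipartiteAbove_eq_sum_card_bipartiteBelow]
  have h2 : ∀ B ∈ hfin.toFinset, (F.bipartiteBelow R B).card ≤ j + 1 := by
    intro B hB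
    rw [Set.Finite.mem_toFinset] at hB
    refine le_of_le_of_eq ?_ (hbc B hB)
    rw [Set.ncard_eq_toFinset_card _ (Set.toFinite B)]
    refine (Finset.card_le_card (t := ((Set.toFinite B).toFinset).image
      (fun x => N.1.closure (B \ {x}))) ?_).trans Finset.card_image_le
    intro H hH
    simp only [Finset.mem_bipartiteBelow, hR] at hH
    obtain ⟨-, x, hx, rfl⟩ := hH
    simp only [Finset.mem_image, Set.Finite.mem_toFinset]
    exact ⟨x, hx, rfl⟩
  refine (Finset.sum_le_card_nsmul _ _ _ h2).trans ?_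
  rw [smul_eq_mul, mul_comm]
  unfold numBases
  rw [Set.ncard_eq_toFinset_card _ hfin]

end Pool.Agent.Work.MP_f3d170_co_h78
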