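import Pool.Agent.Work.MP_f3d170_co_h78.Interface

set_option autoImplicit false

open Set Matroid
open Pool.Agent.Work.MP_f3d170_co_h45

namespace Pool.Agent.Work.MP_f3d170_co_h78

lemma CHAIN_step {n j : ℕ} (𝒩 : Finset (RankMatroid n (j + 1))) (h : IsTransversal 𝒩)
    (hn : n ≤ 3 * j) (m : ℕ) (hm : m < n) : 3 * lev 𝒩 m ≤ 2 * lev 𝒩 (m + 1) := by
  have h1 : (m + 1) * lev 𝒩 m ≤ (m + 1 - j) * lev 𝒩 (m + 1) := chain_sum h hm
  have h2 : 3 * (m + 1 - j) ≤ 2 * (m + 1) := by omega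
  have h3 : (m + 1) * (3 * lev 𝒩 m) ≤ (m + 1) * (2 * lev 𝒩 (m + 1)) := by
    calc (m + 1) * (3 * lev 𝒩 m) = 3 * ((m + 1) * lev 𝒩 m) := by ring
      _ ≤ 3 * ((m + 1 - j) * lev 𝒩 (m + 1)) := Nat.mul_le_mul le_rfl h1
      _ = (3 * (m + 1 - j)) * lev 𝒩 (m + 1) := by ring
      _ ≤ (2 * (m + 1)) * lev 𝒩 (m + 1) := Nat.mul_le_mul h2 le_rfl
      _ = (m + 1) * (2 * lev 𝒩 (m + 1)) := by ring
  exact Nat.le_of_mul_le_mul_left h3 (by omega)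

theorem stmt_CHAIN : Stmt_CHAIN := by
  intro n j 𝒩 h hn d
  induction d with
  | zero => intro _; simp
  | succ d ih =>
    intro hd
    have h1 := ih (by omega)
    have h2 := CHAIN_step 𝒩 h hn (n - (d + 1)) (by omega)
    rw [show n - (d + 1) + 1 = n - d by omega] at h2
    calc 3 ^ (d + 1) * lev 𝒩 (n - (d + 1)) = 3 ^ d * (3 * lev 𝒩 (n - (d + 1))) := by ring
      _ ≤ 3 ^ d * (2 * lev 𝒩 (n - d)) := Nat.mul_le_mul le_rfl h2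
      _ = 2 * (3 ^ d * lev 𝒩 (n - d)) := by ring
      _ ≤ 2 * (2 ^ d * lev 𝒩 n) := Nat.mul_le_mul le_rfl h1
      _ = 2 ^ (d + 1) * lev 𝒩 n := by ring

end Pool.Agent.Work.MP_f3d170_co_h78
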