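import Pool.Agent.Work.MP_f3d170_co_h78.Interface
import Pool.Agent.Work.MP_f3d170_co_h45.Main

set_option autoImplicit false

open Set Matroid
open Pool.Agent.Work.MP_f3d170_co_h45

namespace Pool.Agent.Work.MP_f3d170_co_h78

lemma TAIL_flats_pos {n j : ℕ} (M : RankMatroid n (j + 1)) : 1 ≤ (flatsOf M.1 j).ncard := by
  obtain ⟨B, hB⟩ := M.1.exists_isBase
  have hBc := base_ncard M hB
  have hne : B.Nonempty := by
    rw [← Set.ncard_pos (Set.toFinite B)]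
    omega
  obtain ⟨x, hx⟩ := hne
  have h1 : (B \ {x}).ncard = j := by
    rw [Set.ncard_sdiff_singleton_of_mem hx, hBc]
    omega
  exact (Set.ncard_pos (Set.toFinite _)).2
    ⟨M.1.closure (B \ {x}), B \ {x}, hB.indep.subset Set.sdiff_subset, h1, rfl⟩

lemma TAIL_geom (a b : ℕ) (hab : a ≤ b) :
    ∑ d ∈ Finset.Ico a b, ((2 : ℝ) / 3) ^ d = 3 * (((2 : ℝ) / 3) ^ a - ((2 : ℝ) / 3) ^ b) := by
  induction b, hab using Nat.le_induction with
  | base => simp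
  | succ b hb ih =>
    rw [Finset.sum_Ico_succ_top hb, ih, pow_succ]
    ring

lemma TAIL_lev {n j : ℕ} (hCHAIN : Stmt_CHAIN) (𝒩 : Finset (RankMatroid n (j + 1)))
    (h : IsTransversal 𝒩) (hn : n ≤ 3 * j) (d : ℕ) (hd : d ≤ n) :
    (lev 𝒩 (n - d) : ℝ) ≤ ((2 : ℝ) / 3) ^ d * lev 𝒩 n := by
  have h1 := hCHAIN n j 𝒩 h hn d hd
  have h2 : (3 : ℝ) ^ d * lev 𝒩 (n - d) ≤ 2 ^ d * lev 𝒩 n := by exact_mod_cast h1
  rw [div_pow, div_mul_eq_mul_div, le_div_iff₀ (by positivity)]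
  linarith [mul_comm ((3 : ℝ) ^ d) (lev 𝒩 (n - d) : ℝ)]

lemma TAIL_sum {n j : ℕ} (hCHAIN : Stmt_CHAIN) (𝒩 : Finset (RankMatroid n (j + 1)))
    (h : IsTransversal 𝒩) (hn : n ≤ 3 * j) (a : ℕ) (ha : a ≤ n + 1) :
    ((∑ M ∈ 𝒩 with (nonloops M.1).ncard + a ≤ n, (flatsOf M.1 j).ncard : ℕ) : ℝ) ≤
      3 * ((2 : ℝ) / 3) ^ a * lev 𝒩 n := by
  classical
  have hmap : ∀ M ∈ 𝒩.filter (fun M => (nonloops M.1).ncard + a ≤ n),
      n - (nonloops M.1).ncard ∈ Finset.Ico a (n + 1) := by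
    intro M hM
    rw [Finset.mem_filter] at hM
    rw [Finset.mem_Ico]
    omega
  rw [← Finset.sum_fiberwise_of_maps_to hmap]
  push_cast
  have hle : ∀ d ∈ Finset.Ico a (n + 1),
      (∑ M ∈ (𝒩.filter (fun M => (nonloops M.1).ncard + a ≤ n)) with
        n - (nonloops M.1).ncard = d, ((flatsOf M.1 j).ncard : ℝ)) ≤
      ((2 : ℝ) / 3) ^ d * lev 𝒩 n := by
    intro d hd
    rw [Finset.mem_Ico] at hd
    refine le_trans ?_ (TAIL_lev hCHAIN 𝒩 h hn d (by omega))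
    rw [lev]
    push_cast
    refine Finset.sum_le_sum_of_subset_of_nonneg ?_ (fun _ _ _ => by positivity)
    intro M hM
    rw [Finset.mem_filter, Finset.mem_filter] at hM
    rw [Finset.mem_filter]
    refine ⟨hM.1.1, ?_⟩
    have := nl_le M
    rw [nl] at this
    omega
  refine (Finset.sum_le_sum hle).trans ?_
  rw [← Finset.sum_mul, TAIL_geom a (n + 1) ha]
  have h1 : (0 : ℝ) ≤ lev 𝒩 n := by positivity
  have h2 : (0 : ℝ) ≤ ((2 : ℝ) / 3) ^ (n + 1) := by positivity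
  nlinarith

theorem stmt_TAIL (hCHAIN : Stmt_CHAIN) : Stmt_TAIL := by
  intro n j l 𝒩 h hn
  refine ⟨?_, ?_⟩
  · by_cases hl : l ≤ n
    · have h1 := TAIL_sum hCHAIN 𝒩 h hn (l + 1) (by omega)
      have h2 : (∑ M ∈ 𝒩 with (nonloops M.1).ncard + l < n, (flatsOf M.1 j).ncard) =
          ∑ M ∈ 𝒩 with (nonloops M.1).ncard + (l + 1) ≤ n, (flatsOf M.1 j).ncard := by
        refine Finset.sum_congr ?_ fun _ _ => rfl
        refine Finset.filter_congr fun M _ => ?_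
        omega
      rw [← h2] at h1
      have h3 : (3 : ℝ) ^ l * (3 * ((2 : ℝ) / 3) ^ (l + 1) * lev 𝒩 n) = 2 * 2 ^ l * lev 𝒩 n := by
        rw [div_pow, pow_succ, pow_succ]
        field_simp
      have h4 : (3 : ℝ) ^ l * ((∑ M ∈ 𝒩 with (nonloops M.1).ncard + l < n,
          (flatsOf M.1 j).ncard : ℕ) : ℝ) ≤ 2 * 2 ^ l * lev 𝒩 n := by
        rw [← h3]
        exact mul_le_mul_of_nonneg_left h1 (by positivity)
      exact_mod_cast h4
    · have h2 : (∑ M ∈ 𝒩 with (nonloops M.1).ncard + l < n, (flatsOf M.1 j).ncard) = 0 := by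
        refine Finset.sum_eq_zero fun M hM => ?_
        rw [Finset.mem_filter] at hM
        omega
      rw [h2]
      simp
  · have h1 := TAIL_sum hCHAIN 𝒩 h hn 0 (by omega)
    have h2 : 𝒩.card ≤ ∑ M ∈ 𝒩 with (nonloops M.1).ncard + 0 ≤ n, (flatsOf M.1 j).ncard := by
      have h3 : 𝒩.filter (fun M => (nonloops M.1).ncard + 0 ≤ n) = 𝒩 := by
        refine Finset.filter_true_of_mem fun M _ => ?_
        have := nl_le M
        rw [nl] at this
        omega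
      rw [h3, Finset.card_eq_sum_ones]
      exact Finset.sum_le_sum fun M _ => TAIL_flats_pos M
    have h4 : (𝒩.card : ℝ) ≤ 3 * lev 𝒩 n := by
      have h5 : (𝒩.card : ℝ) ≤ ((∑ M ∈ 𝒩 with (nonloops M.1).ncard + 0 ≤ n,
          (flatsOf M.1 j).ncard : ℕ) : ℝ) := by exact_mod_cast h2
      refine h5.trans (h1.trans ?_)
      simp
    exact_mod_cast h4

end Pool.Agent.Work.MP_f3d170_co_h78
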