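import Pool.Agent.Work.MP_f3d170_co_h78.Interface
import Pool.Agent.Work.MP_f3d170_co_helper44.TCNT

set_option autoImplicit false

open Set Matroid
open Pool.Agent.Work.MP_f3d170_co_h45

namespace Pool.Agent.Work.MP_f3d170_co_h78

lemma BAD_core_sub {n : ℕ} (N : Matroid (Fin n)) (H : Set (Fin n)) : core N H ⊆ H :=
  fun _ hx => hx.1

theorem stmt_BAD (hDET : Stmt_DET) (hHEAVY : Stmt_HEAVY) (hNB : Stmt_NB) (hCORE : Stmt_CORE) :
    Stmt_BAD := by
  intro n j r W u v y l s a B hn hur hWy hyv hls hnW hsa hUB hB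
  set U1 : Set (Set (Fin n)) := {H | j + 1 ≤ H.ncard} with hU1
  set U2 : Set (Set (Fin n)) := {H | j + 1 + u ≤ H.ncard} with hU2
  set Zs : Set (Set (Fin n)) := {Z | Z.ncard ≤ v} with hZs
  set T1 : Set (Set (Set (Fin n))) := {𝒮 | 𝒮 ⊆ U1 ∧ 𝒮.ncard ≤ a} with hT1
  have hT1c : T1.ncard ≤ (3 * B) ^ a :=
    Pool.Agent.Work.MP_f3d170_co_helper44.stmt_CNT (Set (Fin n)) U1 a B (Set.toFinite _) hB hUB
  set P3 : Set (Set (Fin n) × ℕ) := Zs ×ˢ (Set.Iio (v + 1)) with hP3
  have hP3f : P3.Finite := (Set.toFinite Zs).prod (Set.finite_Iio (v + 1))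
  have hP3c : P3.ncard = (v + 1) * Zs.ncard := by
    rw [hP3, Set.ncard_prod, mul_comm]
    congr 1
    rw [Set.ncard_eq_toFinset_card']
    simp
  set T : Set (Set (Set (Fin n)) × (Set (Set (Fin n)) × Set (Set (Fin n) × ℕ))) :=
    T1 ×ˢ ((𝒫 U2) ×ˢ (𝒫 P3)) with hT
  have hTf : T.Finite := (Set.toFinite T1).prod
    ((Set.toFinite (𝒫 U2)).prod hP3f.finite_subsets)
  have hTc : T.ncard ≤ (3 * B) ^ a * 2 ^ (U2.ncard + (v + 1) * Zs.ncard) := by
    rw [hT, Set.ncard_prod, Set.ncard_prod, Set.ncard_powerset _ (Set.toFinite U2),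
      Set.ncard_powerset _ hP3f, hP3c, pow_add]
    exact Nat.mul_le_mul hT1c le_rfl
  refine le_trans ?_ hTc
  refine Set.ncard_le_ncard_of_injOn
    (fun N : RankMatroid n (j + 1) => (D1 N.1 j W, (D2 N.1 j u, D3 N.1 j W u))) ?_ ?_ hTf
  · intro N hN
    have hNbad : Bad j l N := hN
    refine ⟨⟨fun H hH => hH.2.1, ?_⟩, fun H hH => hH.2, ?_⟩
    · have h1 := (hHEAVY n j W l s N hNbad hls).trans hsa
      exact Nat.le_of_mul_le_mul_right h1 (by omega)
    · rintro p ⟨H, hHf, hH1, hH2, hHw, rfl⟩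
      have hc : (core N.1 H).ncard + (H \ core N.1 H).ncard = H.ncard := by
        rw [add_comm]
        exact Set.ncard_diff_add_ncard_of_subset (BAD_core_sub N.1 H) (Set.toFinite _)
      have hnb : nb N.1 H < y := by
        have h1 := hNB n j N H hHf
        have h2 : r - u + 1 ≤ n - H.ncard := by omega
        by_contra hcon
        push Not at hcon
        have h3 : y * (r - u + 1) ≤ nb N.1 H * (n - H.ncard) := Nat.mul_le_mul hcon h2
        rw [mul_comm] at h3
        omega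
      have hco := hCORE n j N H hHf
      have hb1 : n ≤ (nonloops N.1).ncard + l := hNbad.1
      have hv : (core N.1 H).ncard ≤ v := by omega
      refine ⟨hv, ?_⟩
      change j - (H \ core N.1 H).ncard < v + 1
      omega
  · intro N _ N' _ h
    simp only [Prod.mk.injEq] at h
    exact hDET n j W u N N' h.1 h.2.1 h.2.2

end Pool.Agent.Work.MP_f3d170_co_h78
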