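import Pool.Agent.Work.MP_f3d170_co_h78.Interface

/-!
# Block CORE: the core is small if the flat has few bases
-/

set_option autoImplicit false

open Set Matroid
open Pool.Agent.Work.MP_f3d170_co_h45

namespace Pool.Agent.Work.MP_f3d170_co_h78

private theorem CORE_basis {n : ℕ} {N : Matroid (Fin n)} {I K : Set (Fin n)} (hI : N.Indep I)
    (hK : N.Indep K) (hKI : K ⊆ N.closure I) (hc : I.ncard ≤ K.ncard) :
    N.closure K = N.closure I := by
  obtain ⟨J, hJ, hKJ⟩ := hK.subset_isBasis_of_subset hKI (N.closure_subset_ground I)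
  have hcard : J.ncard = I.ncard := ncard_eq_of_isBasis hJ hI.isBasis_closure
  have : K = J := Set.eq_of_subset_of_ncard_le hKJ (by omega) (Set.toFinite _)
  rw [this, hJ.closure_eq_closure, Matroid.closure_closure]

private theorem CORE_swap {n : ℕ} {N : Matroid (Fin n)} {I J : Set (Fin n)} {x : Fin n}
    (hI : N.Indep I) (hx : x ∈ I) (hJ : N.Indep J) (hJI : N.closure J = N.closure I)
    (hxJ : x ∉ J) :
    ∃ y, y ∉ I ∧ N.Indep (insert y (I \ {x})) ∧
      N.closure (insert y (I \ {x})) = N.closure I := by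
  have hex : ∃ y ∈ J, y ∉ N.closure (I \ {x}) := by
    by_contra hcon
    push Not at hcon
    have h1 : N.closure J ⊆ N.closure (I \ {x}) := by
      have := N.closure_subset_closure (show J ⊆ N.closure (I \ {x}) from hcon)
      rwa [Matroid.closure_closure] at this
    have h2 : x ∈ N.closure (I \ {x}) := by
      apply h1
      rw [hJI]
      exact N.subset_closure I hI.subset_ground hx
    exact hI.notMem_closure_sdiff_of_mem hx h2
  obtain ⟨y, hyJ, hy⟩ := hex
  have hyI : y ∉ I := by
    intro h
    apply hy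
    refine N.mem_closure_of_mem (X := I \ {x}) ⟨h, ?_⟩ (Set.sdiff_subset.trans hI.subset_ground)
    intro h'
    rw [Set.mem_singleton_iff] at h'
    exact hxJ (h' ▸ hyJ)
  have hi : N.Indep (insert y (I \ {x})) := by
    have h0 : N.Indep (I \ {x}) := hI.subset Set.sdiff_subset
    rw [h0.insert_indep_iff_of_notMem (fun h => hyI h.1)]
    exact ⟨hJ.subset_ground hyJ, hy⟩
  refine ⟨y, hyI, hi, CORE_basis hI hi ?_ ?_⟩
  · refine Set.insert_subset ?_ (Set.sdiff_subset.trans (N.subset_closure I hI.subset_ground))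
    rw [← hJI]
    exact N.subset_closure J hJ.subset_ground hyJ
  · rw [Set.ncard_insert_of_notMem (fun h => hyI h.1) (Set.toFinite _),
      Set.ncard_sdiff_singleton_of_mem hx]
    omega

theorem stmt_CORE : Stmt_CORE := by
  classical
  intro n j N H hH
  obtain ⟨I, hI, hIc, rfl⟩ := hH
  set M := N.1 with hM
  set S : Set (Set (Fin n)) := {K | M.Indep K ∧ M.closure K = M.closure I} with hS
  have hnb : nb M (M.closure I) = S.ncard := rfl
  have hIS : I ∈ S := ⟨hI, rfl⟩
  -- first family
  have h1 : ((M.closure I ∩ nonloops M) \ I).ncard ≤ (S \ {I}).ncard := by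
    have key : ∀ y, ∃ K : Set (Fin n), y ∈ (M.closure I ∩ nonloops M) \ I →
        K ∈ S ∧ K \ I = {y} := by
      intro y
      by_cases h : y ∈ (M.closure I ∩ nonloops M) \ I
      · obtain ⟨f, hf, h2, h3⟩ := exists_exchange hI h.1.1 h.2 h.1.2
        refine ⟨insert y (I \ {f}), fun _ => ⟨⟨h2, h3⟩, ?_⟩⟩
        ext z
        simp only [Set.mem_sdiff, Set.mem_insert_iff, Set.mem_singleton_iff]
        constructor
        · rintro ⟨hz | hz, hzI⟩
          · exact hz
          · exact absurd hz.1 hzI
        · rintro rfl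
          exact ⟨Or.inl rfl, h.2⟩
      · exact ⟨∅, fun h' => absurd h' h⟩
    choose g hg using key
    refine Set.ncard_le_ncard_of_injOn g ?_ ?_ (Set.toFinite _)
    · intro y hy
      refine ⟨(hg y hy).1, ?_⟩
      intro h
      rw [Set.mem_singleton_iff] at h
      have := (hg y hy).2
      rw [h] at this
      simp only [Set.sdiff_self] at this
      exact absurd this.symm (Set.singleton_ne_empty y)
    · intro y hy z hz hyz
      have e1 := (hg y hy).2
      have e2 := (hg z hz).2
      rw [hyz] at e1
      exact Set.singleton_injective (e1.symm.trans e2)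
  -- second family
  have h2 : (core M (M.closure I) ∩ I).ncard ≤ (S \ {I}).ncard := by
    have key : ∀ x, ∃ K : Set (Fin n), x ∈ core M (M.closure I) ∩ I →
        K ∈ S ∧ I \ K = {x} := by
      intro x
      by_cases h : x ∈ core M (M.closure I) ∩ I
      · obtain ⟨⟨-, J, hJ, hJI, hxJ⟩, hxI⟩ := h
        obtain ⟨y, hyI, h2, h3⟩ := CORE_swap hI hxI hJ hJI hxJ
        refine ⟨insert y (I \ {x}), fun _ => ⟨⟨h2, h3⟩, ?_⟩⟩
        ext z
        simp only [Set.mem_sdiff, Set.mem_insert_iff, Set.mem_singleton_iff]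
        constructor
        · rintro ⟨hzI, hz⟩
          by_contra hne
          exact hz (Or.inr ⟨hzI, hne⟩)
        · rintro rfl
          refine ⟨hxI, ?_⟩
          rintro (h' | h')
          · exact hyI (h' ▸ hxI)
          · exact h'.2 rfl
      · exact ⟨∅, fun h' => absurd h' h⟩
    choose g hg using key
    refine Set.ncard_le_ncard_of_injOn g ?_ ?_ (Set.toFinite _)
    · intro y hy
      refine ⟨(hg y hy).1, ?_⟩
      intro h
      rw [Set.mem_singleton_iff] at h
      have := (hg y hy).2
      rw [h] at this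
      simp only [Set.sdiff_self] at this
      exact absurd this.symm (Set.singleton_ne_empty y)
    · intro y hy z hz hyz
      have e1 := (hg y hy).2
      have e2 := (hg z hz).2
      rw [hyz] at e1
      exact Set.singleton_injective (e1.symm.trans e2)
  have h3 : (S \ {I}).ncard + 1 = S.ncard := Set.ncard_sdiff_singleton_add_one hIS (Set.toFinite _)
  -- the core
  have h4 : core M (M.closure I) ⊆ (core M (M.closure I) ∩ I) ∪
      (((M.closure I ∩ nonloops M) \ I) ∪ (nonloops M)ᶜ) := by
    intro x hx
    by_cases hxI : x ∈ I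
    · exact Or.inl ⟨hx, hxI⟩
    · refine Or.inr ?_
      by_cases hxn : x ∈ nonloops M
      · exact Or.inl ⟨⟨hx.1, hxn⟩, hxI⟩
      · exact Or.inr hxn
  have h5 := Set.ncard_le_ncard h4 (Set.toFinite _)
  have h6 := Set.ncard_union_le (core M (M.closure I) ∩ I)
    (((M.closure I ∩ nonloops M) \ I) ∪ (nonloops M)ᶜ)
  have h7 := Set.ncard_union_le ((M.closure I ∩ nonloops M) \ I) (nonloops M)ᶜ
  have h8 : (nonloops M).ncard + (nonloops M)ᶜ.ncard = n := by
    have := Set.ncard_add_ncard_compl (nonloops M) (Set.toFinite _) (Set.toFinite _)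
    rw [this]
    simp
  rw [hnb]
  omega

end Pool.Agent.Work.MP_f3d170_co_h78
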