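import Pool.Agent.Work.MP_f3d170_co_h78.Interface

set_option autoImplicit false

open Set Matroid
open Pool.Agent.Work.MP_f3d170_co_h45

namespace Pool.Agent.Work.MP_f3d170_co_h78

lemma CRK_ncard {n j : ℕ} {N : Matroid (Fin n)} {H I : Set (Fin n)} (hH : H ∈ flatsOf N j)
    (hI : N.Indep I) (hc : N.closure I = H) : I.ncard = j := by
  obtain ⟨J, hJ, hJc, hJH⟩ := hH
  have h1 : N.IsBasis I H := by rw [← hc]; exact hI.isBasis_closure
  have h2 : N.IsBasis J H := by rw [← hJH]; exact hJ.isBasis_closure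
  rw [← hJc]; exact ncard_eq_of_isBasis h1 h2

lemma CRK_sub {n : ℕ} {N : Matroid (Fin n)} {H I : Set (Fin n)}
    (hI : N.Indep I) (hc : N.closure I = H) : H \ core N H ⊆ I := by
  intro x hx
  by_contra hxI
  exact hx.2 ⟨hx.1, I, hI, hc, hxI⟩

theorem stmt_CRK : Stmt_CRK := by
  intro n j N H hH
  have hle : (H \ core N.1 H).ncard ≤ j := by
    obtain ⟨J, hJ, hJc, hJH⟩ := hH
    exact (Set.ncard_le_ncard (CRK_sub hJ hJH) (Set.toFinite _)).trans hJc.le
  refine ⟨hle, ?_, ?_⟩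
  · intro X hX hXc
    have h1 : X ⊆ (X ∩ core N.1 H) ∪ (H \ core N.1 H) := by
      intro x hx
      by_cases hxc : x ∈ core N.1 H
      · exact Or.inl ⟨hx, hxc⟩
      · exact Or.inr ⟨hX hx, hxc⟩
    have h2 := Set.ncard_le_ncard h1 (Set.toFinite _)
    have h3 := Set.ncard_union_le (X ∩ core N.1 H) (H \ core N.1 H)
    omega
  · intro X hX
    have hYH : X ∩ core N.1 H ⊆ H := fun x hx => hx.2.1
    have hYi : N.1.Indep (X ∩ core N.1 H) := hX.subset Set.inter_subset_left
    have hHg : H ⊆ N.1.E := by rw [N.2.1]; exact Set.subset_univ _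
    obtain ⟨J, hJ, hYJ⟩ := hYi.subset_isBasis_of_subset hYH hHg
    have hHc : N.1.closure H = H := by
      obtain ⟨K, hK, hKc, hKH⟩ := hH
      rw [← hKH, Matroid.closure_closure]
    have hJc : N.1.closure J = H := by rw [hJ.closure_eq_closure, hHc]
    have hd : Disjoint (X ∩ core N.1 H) (H \ core N.1 H) :=
      Set.disjoint_left.2 fun x hx hx' => hx'.2 hx.2
    have h1 : (X ∩ core N.1 H) ∪ (H \ core N.1 H) ⊆ J :=
      Set.union_subset hYJ (CRK_sub hJ.indep hJc)
    have h2 := Set.ncard_le_ncard h1 (Set.toFinite _)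
    rw [Set.ncard_union_eq hd (Set.toFinite _) (Set.toFinite _), CRK_ncard hH hJ.indep hJc] at h2
    omega

end Pool.Agent.Work.MP_f3d170_co_h78
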