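import Pool.Agent.Work.MP_f3d170_co_h78.Interface

set_option autoImplicit false

open Set Matroid
open Pool.Agent.Work.MP_f3d170_co_h45

namespace Pool.Agent.Work.MP_f3d170_co_h78

lemma DET_isBase {n j : ℕ} (N : RankMatroid n (j + 1)) {B : Set (Fin n)} (hB : N.1.Indep B)
    (hc : B.ncard = j + 1) : N.1.IsBase B := by
  refine hB.isBase_of_eRk_ge (Set.toFinite _) ?_
  rw [hB.eRk_eq_encard, N.2.2, ← (Set.toFinite B).cast_ncard_eq, hc]

lemma DET_ncard {n j : ℕ} (N : RankMatroid n (j + 1)) {B : Set (Fin n)} (hB : N.1.IsBase B) :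
    B.ncard = j + 1 := by
  have h := hB.encard_eq_eRank
  rw [N.2.2] at h
  simp only [Set.ncard, h]; rfl

/-- No `(j+1)`-set inside a flat of rank `j` is independent. -/
lemma DET_flat {n j : ℕ} {N : Matroid (Fin n)} {H X : Set (Fin n)} (hH : H ∈ flatsOf N j)
    (hX : X ⊆ H) (hc : X.ncard = j + 1) : ¬ N.Indep X := by
  intro hi
  obtain ⟨J, hJ, hJc, hJH⟩ := hH
  have hHg : H ⊆ N.E := by rw [← hJH]; exact N.closure_subset_ground J
  obtain ⟨K, hK, hXK⟩ := hi.subset_isBasis_of_subset hX hHg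
  have h2 : N.IsBasis J H := by rw [← hJH]; exact hJ.isBasis_closure
  have h3 := ncard_eq_of_isBasis hK h2
  have h4 := Set.ncard_le_ncard hXK (Set.toFinite _)
  omega

/-- A dependent `(j+1)`-set lies in a flat of rank `j`. -/
lemma DET_hyp {n j : ℕ} (N : RankMatroid n (j + 1)) {X : Set (Fin n)} (hc : X.ncard = j + 1)
    (hX : ¬ N.1.IsBase X) : ∃ H ∈ flatsOf N.1 j, X ⊆ H := by
  have hXg : X ⊆ N.1.E := by rw [N.2.1]; exact Set.subset_univ _
  obtain ⟨I, hI⟩ := N.1.exists_isBasis X hXg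
  obtain ⟨B, hB, hIB⟩ := hI.indep.exists_isBase_superset
  have hBc := DET_ncard N hB
  have hne : ∃ f ∈ B, f ∉ I := by
    by_contra hcon
    push Not at hcon
    have hBI : B = I := Set.Subset.antisymm hcon hIB
    have h1 : I = X := Set.eq_of_subset_of_ncard_le hI.subset (by rw [← hBI, hBc, hc])
      (Set.toFinite _)
    exact hX (h1 ▸ hBI ▸ hB)
  obtain ⟨f, hfB, hfI⟩ := hne
  refine ⟨N.1.closure (B \ {f}), ⟨B \ {f}, hB.indep.subset Set.sdiff_subset, ?_, rfl⟩, ?_⟩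
  · rw [Set.ncard_sdiff_singleton_of_mem hfB, hBc]; rfl
  · refine hI.subset_closure.trans (N.1.closure_subset_closure ?_)
    intro x hx
    exact ⟨hIB hx, fun h => hfI (h ▸ hx)⟩

lemma DET_char (hCRK : Stmt_CRK) {n j : ℕ} (W u : ℕ) (N : RankMatroid n (j + 1))
    {X : Set (Fin n)} (hc : X.ncard = j + 1) :
    ¬ N.1.IsBase X ↔ (∃ H ∈ D1 N.1 j W ∪ D2 N.1 j u, X ⊆ H) ∨
      ∃ p ∈ D3 N.1 j W u, p.2 < (X ∩ p.1).ncard := by
  constructor
  · intro h
    obtain ⟨H, hH, hXH⟩ := DET_hyp N hc h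
    have hle := Set.ncard_le_ncard hXH (Set.toFinite _)
    rw [hc] at hle
    by_cases h2 : j + 1 + u ≤ H.ncard
    · exact Or.inl ⟨H, Or.inr ⟨hH, h2⟩, hXH⟩
    by_cases h1 : W ≤ wt N.1 H
    · exact Or.inl ⟨H, Or.inl ⟨hH, hle, h1⟩, hXH⟩
    · refine Or.inr ⟨(core N.1 H, j - (H \ core N.1 H).ncard),
        ⟨H, hH, hle, by omega, by omega, rfl⟩, ?_⟩
      exact (hCRK n j N H hH).2.1 X hXH hc
  · rintro (⟨H, hH, hXH⟩ | ⟨p, ⟨H, hH, -, -, -, rfl⟩, hp⟩) hB
    · have hH' : H ∈ flatsOf N.1 j := by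
        rcases hH with h | h
        · exact h.1
        · exact h.1
      exact DET_flat hH' hXH hc hB.indep
    · exact absurd ((hCRK n j N H hH).2.2 X hB.indep) (not_le.2 hp)

theorem stmt_DET (hCRK : Stmt_CRK) : Stmt_DET := by
  intro n j W u N N' h1 h2 h3
  have key : ∀ X : Set (Fin n), N.1.IsBase X ↔ N'.1.IsBase X := by
    intro X
    by_cases hc : X.ncard = j + 1
    · rw [← not_iff_not, DET_char hCRK W u N hc, DET_char hCRK W u N' hc, h1, h2, h3]
    · exact ⟨fun h => absurd (DET_ncard N h) hc, fun h => absurd (DET_ncard N' h) hc⟩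
  have hE : N.1.E = N'.1.E := by rw [N.2.1, N'.2.1]
  exact Subtype.ext (Matroid.ext_isBase hE (fun X _ => key X))

end Pool.Agent.Work.MP_f3d170_co_h78
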