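import Pool.Agent.Work.MP_f3d170_co_h78.Interface
import Pool.Agent.Work.MP_f3d170_co_helper60.Assemble

set_option autoImplicit false

open Set Matroid
open Pool.Agent.Work.MP_f3d170_co_h45

namespace Pool.Agent.Work.MP_f3d170_co_h78

open Classical in
/-- The pointwise inequality. -/
theorem FIN_pt {n j l : ℕ} (M : RankMatroid n (j + 1)) :
    (j + 1) * (flatsOf M.1 j).ncard +
        (if (nonloops M.1).ncard = n then (flatsOf M.1 j).ncard else 0) ≤
      (j + 1) * numBases M.1 + (if Bad j l M then (j + 2) * 2 ^ n else 0) +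
        (j + 1) * (if (nonloops M.1).ncard + l < n then (flatsOf M.1 j).ncard else 0) := by
  have hh : (flatsOf M.1 j).ncard ≤ 2 ^ n := by
    calc (flatsOf M.1 j).ncard ≤ (Set.univ : Set (Set (Fin n))).ncard :=
          Set.ncard_le_ncard (Set.subset_univ _) (Set.toFinite _)
      _ = 2 ^ n := by
          rw [Set.ncard_univ, Nat.card_eq_fintype_card, Fintype.card_set, Fintype.card_fin]
  set h := (flatsOf M.1 j).ncard with hhdef
  set b := numBases M.1 with hb
  by_cases ht : (nonloops M.1).ncard + l < n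
  · have h1 : (nonloops M.1).ncard ≠ n := by omega
    rw [if_neg h1, if_pos ht]
    have := Nat.zero_le ((j + 1) * b)
    have := Nat.zero_le (if Bad j l M then (j + 2) * 2 ^ n else 0)
    omega
  · rw [if_neg ht]
    have h2 : (if (nonloops M.1).ncard = n then h else 0) ≤ h := by
      split_ifs <;> omega
    by_cases hB : Bad j l M
    · rw [if_pos hB]
      have h3 : (j + 2) * h ≤ (j + 2) * 2 ^ n := Nat.mul_le_mul_left _ hh
      have h4 : (j + 2) * h = (j + 1) * h + h := by ring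
      have := Nat.zero_le ((j + 1) * b)
      omega
    · rw [if_neg hB]
      have h3 : ¬ (j + 1) * b < (j + 2) * h := by
        intro h4
        exact hB ⟨by omega, h4⟩
      have h4 : (j + 2) * h = (j + 1) * h + h := by ring
      omega

theorem p_FIN (hTAIL : Stmt_TAIL) : Stmt_FIN := by
  classical
  intro n j l β 𝒩 h𝒩 hn hbad hl hβ
  obtain ⟨ht1, ht2⟩ := hTAIL n j l 𝒩 h𝒩 hn
  set T := ∑ M ∈ 𝒩 with (nonloops M.1).ncard + l < n, (flatsOf M.1 j).ncard with hT
  set V := lev 𝒩 n with hV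
  -- the tail
  have hT4 : 4 * (j + 1) * T ≤ V := by
    have h1 : 3 ^ l * (4 * (j + 1) * T) ≤ 3 ^ l * V := by
      calc 3 ^ l * (4 * (j + 1) * T) = 4 * (j + 1) * (3 ^ l * T) := by ring
        _ ≤ 4 * (j + 1) * (2 * 2 ^ l * V) := Nat.mul_le_mul_left _ ht1
        _ = 8 * (j + 1) * 2 ^ l * V := by ring
        _ ≤ 3 ^ l * V := Nat.mul_le_mul_right _ hl
    exact Nat.le_of_mul_le_mul_left h1 (by positivity)
  -- the number of classes
  have hc := Pool.Agent.Work.MP_f3d170_co_helper60.card_rankMatroid_le h𝒩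
  have hV4 : 4 * ((j + 2) * 2 ^ n * β) < V := by
    have h1 : 12 * (j + 2) * 2 ^ n * β * n.factorial < 𝒩.card * n.factorial := lt_of_lt_of_le hβ hc
    have h2 : 12 * (j + 2) * 2 ^ n * β < 𝒩.card := Nat.lt_of_mul_lt_mul_right h1
    have h3 : 12 * (j + 2) * 2 ^ n * β = 3 * (4 * ((j + 2) * 2 ^ n * β)) := by ring
    omega
  -- the sum
  have hsum := Finset.sum_le_sum (s := 𝒩) fun M _ => FIN_pt (l := l) M
  rw [Finset.sum_add_distrib, Finset.sum_add_distrib, Finset.sum_add_distrib, ← Finset.mul_sum,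
    ← Finset.mul_sum, ← Finset.mul_sum, ← Finset.sum_filter, ← Finset.sum_filter,
    ← Finset.sum_filter] at hsum
  have hB : ∑ M ∈ 𝒩 with Bad j l M, (j + 2) * 2 ^ n ≤ (j + 2) * 2 ^ n * β := by
    rw [Finset.sum_const, smul_eq_mul]
    have h1 : (𝒩.filter fun M => Bad j l M).card ≤ β := by
      refine le_trans ?_ hbad
      rw [← Set.ncard_coe_finset]
      refine Set.ncard_le_ncard ?_ (Set.toFinite _)
      intro M hM
      exact (Finset.mem_filter.1 (Finset.mem_coe.1 hM)).2
    calc (𝒩.filter fun M => Bad j l M).card * ((j + 2) * 2 ^ n)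
        ≤ β * ((j + 2) * 2 ^ n) := Nat.mul_le_mul_right _ h1
      _ = (j + 2) * 2 ^ n * β := by ring
  have hVe : ∑ M ∈ 𝒩 with (nonloops M.1).ncard = n, (flatsOf M.1 j).ncard = V := rfl
  have hTe : ∑ M ∈ 𝒩 with (nonloops M.1).ncard + l < n, (flatsOf M.1 j).ncard = T := rfl
  rw [hVe, hTe] at hsum
  clear_value T V
  have h5 : (j + 1) * ∑ M ∈ 𝒩, (flatsOf M.1 j).ncard < (j + 1) * ∑ M ∈ 𝒩, numBases M.1 := by
    have h6 : 4 * (j + 1) * T = 4 * ((j + 1) * T) := by ring
    omega
  exact Nat.lt_of_mul_lt_mul_left h5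

end Pool.Agent.Work.MP_f3d170_co_h78
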