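import Pool.Agent.Work.MP_f3d170_co_h78.Interface

/-!
# Block HEAVY: few dependent hyperplanes of large weight
-/

set_option autoImplicit false

open Set Matroid
open Pool.Agent.Work.MP_f3d170_co_h45

namespace Pool.Agent.Work.MP_f3d170_co_h78

private theorem HEAVY_flats (n j : ℕ) (N : Matroid (Fin n)) :
    (flatsOf N j).ncard ≤ n.choose j := by
  classical
  have key : ∀ H : Set (Fin n), ∃ I : Set (Fin n), H ∈ flatsOf N j →
      I.ncard = j ∧ N.closure I = H := by
    intro H
    by_cases h : H ∈ flatsOf N j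
    · obtain ⟨I, -, hc, hI⟩ := h
      exact ⟨I, fun _ => ⟨hc, hI⟩⟩
    · exact ⟨∅, fun h' => absurd h' h⟩
  choose g hg using key
  have h1 : (flatsOf N j).ncard ≤ {I : Set (Fin n) | I.ncard = j}.ncard := by
    refine Set.ncard_le_ncard_of_injOn g ?_ ?_ (Set.toFinite _)
    · intro H hH
      exact (hg H hH).1
    · intro H hH H' hH' hh
      rw [← (hg H hH).2, ← (hg H' hH').2, hh]
  refine h1.trans (le_of_eq ?_)
  have h2 : {I : Set (Fin n) | I.ncard = j} =
      (fun s : Finset (Fin n) => (s : Set (Fin n))) ''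
        ((Finset.powersetCard j (Finset.univ : Finset (Fin n)) : Finset (Finset (Fin n))) :
          Set (Finset (Fin n))) := by
    ext I
    simp only [Set.mem_ofPred_eq, Set.mem_image, Finset.mem_coe, Finset.mem_powersetCard,
      Finset.subset_univ, true_and]
    constructor
    · intro h
      refine ⟨(Set.toFinite I).toFinset, ?_, (Set.toFinite I).coe_toFinset⟩
      rw [← Set.ncard_eq_toFinset_card _ (Set.toFinite I)]
      exact h
    · rintro ⟨s, hs, rfl⟩
      rw [Set.ncard_coe_finset]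
      exact hs
  rw [h2, Set.ncard_image_of_injective _ Finset.coe_injective, Set.ncard_coe_finset,
    Finset.card_powersetCard]
  simp

theorem stmt_HEAVY (hWGE : Stmt_WGE) (hWSUM : Stmt_WSUM) : Stmt_HEAVY := by
  classical
  intro n j W l s N hB hs
  obtain ⟨hB1, hB2⟩ := hB
  have hfin : (flatsOf N.1 j).Finite := Set.toFinite _
  have hDfin : (D1 N.1 j W).Finite := Set.toFinite _
  have hDF : hDfin.toFinset ⊆ hfin.toFinset := by
    intro H hH
    rw [Set.Finite.mem_toFinset] at hH ⊢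
    exact hH.1
  have hch := HEAVY_flats n j N.1
  have hne : 0 < (flatsOf N.1 j).ncard := by
    by_contra h
    have : (flatsOf N.1 j).ncard = 0 := by omega
    rw [this] at hB2
    simp at hB2
  have hjn : j ≤ n := by
    obtain ⟨H, I, -, hc, -⟩ := (Set.ncard_pos hfin).1 hne
    have := Set.ncard_le_ncard (Set.subset_univ I) (Set.toFinite _)
    rw [Set.ncard_univ, Nat.card_eq_fintype_card, Fintype.card_fin] at this
    omega
  have hmn : (nonloops N.1).ncard ≤ n := by
    have := Set.ncard_le_ncard (Set.subset_univ (nonloops N.1)) (Set.toFinite _)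
    rw [Set.ncard_univ, Nat.card_eq_fintype_card, Fintype.card_fin] at this
    exact this
  have hsum := hWSUM n j N hfin.toFinset
  set m : ℕ := (nonloops N.1).ncard with hm
  set h : ℕ := (flatsOf N.1 j).ncard with hh
  set b : ℕ := numBases N.1 with hb
  have hcard : (hfin.toFinset.card : ℤ) = h := by
    rw [hh, Set.ncard_eq_toFinset_card _ hfin]
  have hDcard : (hDfin.toFinset.card : ℤ) = (D1 N.1 j W).ncard := by
    rw [Set.ncard_eq_toFinset_card _ hDfin]
  -- integers
  have e1 : ∑ H ∈ hfin.toFinset, ((wt N.1 H : ℤ) - ((m : ℤ) - j)) ≤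
      (j + 1) * b - h * ((m : ℤ) - j) := by
    rw [Finset.sum_sub_distrib, Finset.sum_const, nsmul_eq_mul, hcard]
    have : (∑ H ∈ hfin.toFinset, (wt N.1 H : ℤ)) ≤ (j + 1) * b := by exact_mod_cast hsum
    linarith
  have e2 : ∑ H ∈ hDfin.toFinset, ((wt N.1 H : ℤ) - ((m : ℤ) - j)) ≤
      ∑ H ∈ hfin.toFinset, ((wt N.1 H : ℤ) - ((m : ℤ) - j)) := by
    refine Finset.sum_le_sum_of_subset_of_nonneg hDF ?_
    intro H hH _
    rw [Set.Finite.mem_toFinset] at hH
    have := hWGE n j N H hH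
    have h' : (m : ℤ) ≤ wt N.1 H + j := by exact_mod_cast this
    linarith
  have e3 : ((D1 N.1 j W).ncard : ℤ) * ((W : ℤ) - ((m : ℤ) - j)) ≤
      ∑ H ∈ hDfin.toFinset, ((wt N.1 H : ℤ) - ((m : ℤ) - j)) := by
    rw [← hDcard, ← nsmul_eq_mul]
    refine Finset.card_nsmul_le_sum _ _ _ ?_
    intro H hH
    rw [Set.Finite.mem_toFinset] at hH
    have : (W : ℤ) ≤ wt N.1 H := by exact_mod_cast hH.2.2
    linarith
  have e4 : ((j + 1 : ℕ) : ℤ) * b < ((j + 2 : ℕ) : ℤ) * h := by exact_mod_cast hB2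
  push_cast at e4
  have e5 : (h : ℤ) * (2 * j + 2 - m) ≤ h * s := by
    have : (2 * j + 2 - m : ℤ) ≤ s := by omega
    exact mul_le_mul_of_nonneg_left this (by positivity)
  have e6 : (h : ℤ) * s ≤ s * (n.choose j : ℕ) := by
    rw [mul_comm]
    have : (h : ℤ) ≤ (n.choose j : ℕ) := by exact_mod_cast hch
    exact mul_le_mul_of_nonneg_left this (by positivity)
  have e7 : ((D1 N.1 j W).ncard : ℤ) * ((W : ℤ) - ((m : ℤ) - j)) ≤ s * (n.choose j : ℕ) := by
    nlinarith
  by_cases hW : W ≤ n - j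
  · have : W - (n - j) = 0 := by omega
    rw [this, mul_zero]
    exact Nat.zero_le _
  · have e8 : ((W - (n - j) : ℕ) : ℤ) ≤ (W : ℤ) - ((m : ℤ) - j) := by omega
    have e9 : ((D1 N.1 j W).ncard : ℤ) * ((W - (n - j) : ℕ) : ℤ) ≤ s * (n.choose j : ℕ) :=
      (mul_le_mul_of_nonneg_left e8 (by positivity)).trans e7
    exact_mod_cast e9

end Pool.Agent.Work.MP_f3d170_co_h78
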