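import Pool.Agent.Work.MP_f3d170_co_h78.Interface

set_option autoImplicit false

open Set Matroid
open Pool.Agent.Work.MP_f3d170_co_h45

namespace Pool.Agent.Work.MP_f3d170_co_h78

lemma UPS_mono (n a : ℕ) : ∀ d, 2 * (a + d) ≤ n → n.choose a ≤ n.choose (a + d) := by
  intro d
  induction d with
  | zero => intro _; exact le_rfl
  | succ d ih =>
    intro h
    refine (ih (by omega)).trans ?_
    exact Nat.choose_le_succ_of_lt_half_left (by omega)

theorem stmt_UPS : Stmt_UPS := by
  classical
  intro n k hk hn
  have h1 : {H : Set (Fin n) | k ≤ H.ncard}.ncard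
      ≤ ((Finset.univ : Finset (Finset (Fin n))).filter (fun s => k ≤ s.card)).card := by
    rw [← Set.ncard_coe_finset]
    refine Set.ncard_le_ncard_of_injOn (fun H : Set (Fin n) => (Set.toFinite H).toFinset) ?_ ?_
      (Set.toFinite _)
    · intro H hH
      have hH' : k ≤ H.ncard := hH
      simp only [Finset.coe_filter, Finset.mem_univ, true_and, Set.mem_ofPred_eq]
      rw [← Set.ncard_eq_toFinset_card]
      exact hH'
    · intro H _ K _ h
      exact Set.Finite.toFinset_inj.1 h
  refine h1.trans ?_
  have h2 : ((Finset.univ : Finset (Finset (Fin n))).filter (fun s => k ≤ s.card))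
      ⊆ (Finset.Icc k n).biUnion (fun i => Finset.powersetCard i Finset.univ) := by
    intro s hs
    simp only [Finset.mem_filter, Finset.mem_univ, true_and] at hs
    have h3 : s.card ≤ n := by
      have := Finset.card_le_univ s
      rwa [Fintype.card_fin] at this
    simp only [Finset.mem_biUnion, Finset.mem_Icc, Finset.mem_powersetCard]
    exact ⟨s.card, ⟨hs, h3⟩, Finset.subset_univ _, rfl⟩
  refine (Finset.card_le_card h2).trans (Finset.card_biUnion_le.trans ?_)
  have h4 : ∀ i ∈ Finset.Icc k n, (Finset.powersetCard i (Finset.univ : Finset (Fin n))).card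
      ≤ n.choose k := by
    intro i hi
    rw [Finset.mem_Icc] at hi
    rw [Finset.card_powersetCard, Finset.card_univ, Fintype.card_fin]
    rw [← Nat.choose_symm hi.2, ← Nat.choose_symm (hi.1.trans hi.2)]
    have := UPS_mono n (n - i) (i - k) (by omega)
    rwa [show n - i + (i - k) = n - k by omega] at this
  refine (Finset.sum_le_card_nsmul _ _ _ h4).trans ?_
  rw [Nat.card_Icc, smul_eq_mul]
  exact Nat.mul_le_mul_right _ (by omega)

end Pool.Agent.Work.MP_f3d170_co_h78
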