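import Pool.Agent.Work.MP_f3d170_co_h78.Assembly
import Pool.Agent.Work.MP_f3d170_co_h78.B_BAD
import Pool.Agent.Work.MP_f3d170_co_h78.B_CHAIN
import Pool.Agent.Work.MP_f3d170_co_h78.B_CORE
import Pool.Agent.Work.MP_f3d170_co_h78.B_CRK
import Pool.Agent.Work.MP_f3d170_co_h78.B_DET
import Pool.Agent.Work.MP_f3d170_co_h78.B_FIN
import Pool.Agent.Work.MP_f3d170_co_h78.B_HEAVY
import Pool.Agent.Work.MP_f3d170_co_h78.B_LOWER
import Pool.Agent.Work.MP_f3d170_co_h78.B_LOWS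
import Pool.Agent.Work.MP_f3d170_co_h78.B_NB
import Pool.Agent.Work.MP_f3d170_co_h78.B_TAIL
import Pool.Agent.Work.MP_f3d170_co_h78.B_UPS
import Pool.Agent.Work.MP_f3d170_co_h78.B_WGE
import Pool.Agent.Work.MP_f3d170_co_h78.B_WSUM

set_option autoImplicit false

open Set Matroid
open Pool.Agent.Work.MP_f3d170_co_h45

namespace Pool.Agent.Work.MP_f3d170_co_h78

/-- `B(n,r) > C(n,r)` for large `r` and `n ≤ 2 r + c r / log r`. -/
theorem all_main : ∃ c : ℝ, 0 < c ∧ ∃ r₀ : ℕ, ∀ r n : ℕ, r₀ ≤ r → r ≤ n →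
    (n : ℝ) ≤ 2 * r + c * (r / Real.log r) →
    ∀ 𝒩 : Finset (RankMatroid n r), IsTransversal 𝒩 →
      ∑ M ∈ 𝒩, numCircuits M.1 < ∑ M ∈ 𝒩, numBases M.1 :=
  final_main (stmt_BAD (stmt_DET stmt_CRK) (stmt_HEAVY stmt_WGE stmt_WSUM) stmt_NB stmt_CORE)
    p_LOWER (p_FIN (stmt_TAIL stmt_CHAIN)) stmt_UPS stmt_LOWS

end Pool.Agent.Work.MP_f3d170_co_h78
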