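import Mathlib

/-! Numerics for MP_f3d170_co (note 2894). -/

set_option autoImplicit false

namespace Pool.Agent.Work.MP_f3d170_co_h78

lemma num_L : ∃ L₀ : ℕ, ∀ L : ℕ, L₀ ≤ L → 10 ^ 12 * L ^ 4 ≤ 2 ^ L := by
  have h := tendsto_pow_const_div_const_pow_of_one_lt 4 (r := (2 : ℝ)) (by norm_num)
  have h1 : ∀ᶠ n : ℕ in Filter.atTop, (n : ℝ) ^ 4 / 2 ^ n < 1 / 10 ^ 12 :=
    h.eventually (gt_mem_nhds (by norm_num))
  obtain ⟨L₀, hL⟩ := h1.exists_forall_of_atTop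
  refine ⟨L₀, fun L hL' => ?_⟩
  have h2 := hL L hL'
  rw [div_lt_div_iff₀ (by positivity) (by norm_num)] at h2
  have h3 : (10 : ℝ) ^ 12 * (L : ℝ) ^ 4 ≤ 2 ^ L := by linarith
  exact_mod_cast h3

/-- the numbers of the proof -/
structure NumData (r n : ℕ) : Prop where
  r_pos : 1000 ≤ r
  n_lo : 2 * r < n
  t_hi : (n - 2 * r) * (100000 * (Nat.log 2 n + 1)) ≤ r
  L_big : 10 ^ 12 * (Nat.log 2 n + 1) ^ 4 ≤ 2 ^ (Nat.log 2 n + 1)

lemma exists_numData : ∃ r₀ : ℕ, ∀ r n : ℕ, r₀ ≤ r → 2 * r < n →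
    (n - 2 * r) * (100000 * (Nat.log 2 n + 1)) ≤ r → NumData r n := by
  obtain ⟨L₀, hL⟩ := num_L
  refine ⟨max 1000 (2 ^ L₀), fun r n hr hn ht => ⟨le_trans (le_max_left _ _) hr, hn, ht, ?_⟩⟩
  apply hL
  have h1 : 2 ^ L₀ ≤ n := by
    have := le_trans (le_max_right _ _) hr
    omega
  have h2 := Nat.le_log_of_pow_le (by norm_num) h1
  omega

section

variable {r n : ℕ}

/-- abbreviations: `L`, `w`, `l`, `s`, `K`, `a`, `B` -/
def nL (n : ℕ) : ℕ := Nat.log 2 n + 1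
def nw (r : ℕ) : ℕ := r / 8
def nl (n : ℕ) : ℕ := 2 * (nL n + 3)
def ns (r n : ℕ) : ℕ := (n - 2 * r) + nl n
def nK (r n : ℕ) : ℕ := n.choose r
def na (r n : ℕ) : ℕ := nK r n / (32 * n * nL n)
def nB (n : ℕ) : ℕ := 64 * n ^ 2 * nL n

lemma NumData.n_lt (_ : NumData r n) : n < 2 ^ nL n := Nat.lt_pow_succ_log_self (by norm_num) n

lemma NumData.le_n (h : NumData r n) : 2 ^ nL n ≤ 2 * n := by
  have h1 : 2 ^ Nat.log 2 n ≤ n := Nat.pow_log_le_self 2 (by have := h.n_lo; omega)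
  unfold nL
  rw [pow_succ]
  omega

lemma NumData.t_le (h : NumData r n) : n ≤ 2 * r + r / 100000 := by
  have h1 := h.t_hi
  have h2 : (n - 2 * r) * 100000 ≤ r := by
    refine le_trans ?_ h1
    apply Nat.mul_le_mul_left
    omega
  have h3 : n - 2 * r ≤ r / 100000 := by
    rw [Nat.le_div_iff_mul_le (by norm_num)]
    exact h2
  omega

lemma NumData.L_ge (h : NumData r n) : 10 ^ 12 * nL n ^ 4 ≤ 2 * n := h.L_big.trans h.le_n

lemma NumData.one_le_L (_ : NumData r n) : 1 ≤ nL n := by unfold nL; omega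

lemma NumData.L_ge10 (h : NumData r n) : 10 ≤ nL n := by
  have h1 : n < 2 ^ nL n := h.n_lt
  by_contra hcon
  push Not at hcon
  have : 2 ^ nL n ≤ 2 ^ 10 := Nat.pow_le_pow_right (by norm_num) hcon.le
  have h3 := h.r_pos
  have h4 := h.n_lo
  omega

/-- `r` is much larger than `L ^ 4` -/
lemma NumData.r_big (h : NumData r n) : 10 ^ 11 * nL n ^ 4 ≤ r := by
  have h1 := h.L_ge
  have h2 := h.t_le
  omega

lemma NumData.L_le_pow (h : NumData r n) : 10 ^ 3 * nL n ≤ nL n ^ 4 := by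
  have h1 := h.L_ge10
  have h2 : 10 ^ 3 ≤ nL n ^ 3 := Nat.pow_le_pow_left h1 3
  calc 10 ^ 3 * nL n ≤ nL n ^ 3 * nL n := Nat.mul_le_mul_right _ h2
    _ = nL n ^ 4 := by ring

lemma NumData.w_big (h : NumData r n) : 10 ^ 6 * nL n ≤ nw r := by
  have h1 := h.r_big
  have h2 := h.L_le_pow
  have h3 : 10 ^ 14 * nL n ≤ r := by
    calc 10 ^ 14 * nL n = 10 ^ 11 * (10 ^ 3 * nL n) := by ring
      _ ≤ 10 ^ 11 * nL n ^ 4 := Nat.mul_le_mul_left _ h2
      _ ≤ r := h1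
  unfold nw
  omega

lemma NumData.w4 (h : NumData r n) : 4 ≤ nw r := by
  have := h.w_big
  have := h.one_le_L
  omega

/-- `8 w ≤ r ≤ 8 w + 7` -/
lemma nw_spec (r : ℕ) : 8 * nw r ≤ r ∧ r ≤ 8 * nw r + 7 := by unfold nw; omega

lemma NumData.c1 (h : NumData r n) : 2 * nw r + nl n ≤ 4 * nw r + 2 := by
  have := h.w_big
  have := h.one_le_L
  unfold nl
  omega

lemma NumData.c2 (h : NumData r n) : r + 1 < 4 * nw r * nw r := by
  have h1 := nw_spec r
  have h2 := h.w_big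
  have h3 := h.one_le_L
  nlinarith

lemma NumData.s_le (h : NumData r n) : ns r n * (100000 * nL n) ≤ 2 * r := by
  have h1 := h.t_hi
  have h2 : nl n * (100000 * nL n) ≤ r := by
    have h3 := h.r_big
    have h4 : nl n ≤ 8 * nL n := by unfold nl; have := h.one_le_L; omega
    calc nl n * (100000 * nL n) ≤ 8 * nL n * (100000 * nL n) := Nat.mul_le_mul_right _ h4
      _ = 800000 * nL n ^ 2 := by ring
      _ ≤ 10 ^ 11 * nL n ^ 4 := by
          apply Nat.mul_le_mul (by norm_num)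
          exact Nat.pow_le_pow_right h.one_le_L (by norm_num)
      _ ≤ r := h3
  unfold ns
  rw [add_mul]
  have h5 : (n - 2 * r) * (100000 * nL n) ≤ r := h1
  omega

/-- `K ≥ 2 ^ (3 w)` from `3 ^ (6 w) ≤ 2 ^ (6 w) K` -/
lemma K_ge {w K : ℕ} (h : 3 ^ (6 * w) ≤ 2 ^ (6 * w) * K) : 2 ^ (3 * w) ≤ K := by
  have h1 : (3 : ℕ) ^ (6 * w) = 9 ^ (3 * w) := by
    rw [show 6 * w = 2 * (3 * w) by ring, pow_mul]; norm_num
  have h2 : (2 : ℕ) ^ (6 * w) = 4 ^ (3 * w) := by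
    rw [show 6 * w = 2 * (3 * w) by ring, pow_mul]; norm_num
  rw [h1, h2] at h
  have h3 : (8 : ℕ) ^ (3 * w) ≤ 9 ^ (3 * w) := Nat.pow_le_pow_left (by norm_num) _
  have h4 : (4 : ℕ) ^ (3 * w) * 2 ^ (3 * w) = 8 ^ (3 * w) := by rw [← mul_pow]; norm_num
  have h5 : (4 : ℕ) ^ (3 * w) * 2 ^ (3 * w) ≤ 4 ^ (3 * w) * K := by rw [h4]; exact h3.trans h
  exact Nat.le_of_mul_le_mul_left h5 (by positivity)

/-- `2 ^ (w - 4) G ≤ (4 w + 8) K` from `3 ^ (2 w - 7) G ≤ (4 w + 8) (2 ^ (2 w - 7) K)` -/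
lemma G_le {w K G : ℕ} (hw : 4 ≤ w)
    (h : 3 ^ (2 * w - 7) * G ≤ (4 * w + 8) * (2 ^ (2 * w - 7) * K)) :
    2 ^ (w - 4) * G ≤ (4 * w + 8) * K := by
  have e : 2 * w - 7 = 2 * (w - 4) + 1 := by omega
  have h1 : 2 ^ (2 * w - 7) * 2 ^ (w - 4) ≤ (3 : ℕ) ^ (2 * w - 7) := by
    rw [e, pow_succ, pow_succ, pow_mul, pow_mul]
    have : ((2 : ℕ) ^ 2) ^ (w - 4) * 2 ^ (w - 4) ≤ (3 ^ 2) ^ (w - 4) := by
      rw [← mul_pow]
      exact Nat.pow_le_pow_left (by norm_num) _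
    calc (2 ^ 2) ^ (w - 4) * 2 * 2 ^ (w - 4) = 2 * ((2 ^ 2) ^ (w - 4) * 2 ^ (w - 4)) := by ring
      _ ≤ 3 * (3 ^ 2) ^ (w - 4) := Nat.mul_le_mul (by norm_num) this
      _ = (3 ^ 2) ^ (w - 4) * 3 := by ring
  have h2 : 2 ^ (2 * w - 7) * (2 ^ (w - 4) * G) ≤ 2 ^ (2 * w - 7) * ((4 * w + 8) * K) := by
    calc 2 ^ (2 * w - 7) * (2 ^ (w - 4) * G) = (2 ^ (2 * w - 7) * 2 ^ (w - 4)) * G := by ring
      _ ≤ 3 ^ (2 * w - 7) * G := Nat.mul_le_mul_right _ h1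
      _ ≤ (4 * w + 8) * (2 ^ (2 * w - 7) * K) := h
      _ = 2 ^ (2 * w - 7) * ((4 * w + 8) * K) := by ring
  exact Nat.le_of_mul_le_mul_left h2 (by positivity)

/-- `K` is at least `2 ^ (10 L)` -/
lemma NumData.K_big (h : NumData r n) (hK : 2 ^ (3 * nw r) ≤ nK r n) :
    2 ^ (10 * nL n) ≤ nK r n :=
  (Nat.pow_le_pow_right (by norm_num) (by have := h.w_big; omega)).trans hK

lemma NumData.K_big' (h : NumData r n) (hK : 2 ^ (3 * nw r) ≤ nK r n) :
    n ^ 5 * nL n * 2 ^ 10 ≤ nK r n := by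
  have h1 := h.K_big hK
  have h2 : nL n ≤ 2 ^ nL n := Nat.lt_two_pow_self.le
  have h3 : (2 : ℕ) ^ 10 ≤ 2 ^ nL n := Nat.pow_le_pow_right (by norm_num) h.L_ge10
  calc n ^ 5 * nL n * 2 ^ 10 ≤ (2 ^ nL n) ^ 5 * 2 ^ nL n * 2 ^ nL n :=
        Nat.mul_le_mul (Nat.mul_le_mul (Nat.pow_le_pow_left h.n_lt.le 5) h2) h3
    _ = 2 ^ (7 * nL n) := by rw [← pow_mul, ← pow_add, ← pow_add]; congr 1; ring
    _ ≤ 2 ^ (10 * nL n) := Nat.pow_le_pow_right (by norm_num) (by omega)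
    _ ≤ nK r n := h1

lemma NumData.n_pos (h : NumData r n) : 1 ≤ n := by have := h.n_lo; omega

lemma NumData.a_ge (h : NumData r n) (hK : 2 ^ (3 * nw r) ≤ nK r n) :
    nK r n ≤ na r n * (64 * n * nL n) := by
  have h1 := h.K_big' hK
  have hn := h.n_pos
  have hL := h.one_le_L
  have hd : 0 < 32 * n * nL n := by positivity
  have h2 : 64 * n * nL n ≤ nK r n := by
    refine le_trans ?_ h1
    calc 64 * n * nL n = n * nL n * 64 := by ring
      _ ≤ n ^ 5 * nL n * 2 ^ 10 := by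
          apply Nat.mul_le_mul (Nat.mul_le_mul_right _ ?_) (by norm_num)
          exact Nat.le_self_pow (by norm_num) n
  have h3 : nK r n < (na r n + 1) * (32 * n * nL n) := by
    unfold na
    have := Nat.lt_mul_div_succ (nK r n) hd
    calc nK r n < (32 * n * nL n) * (nK r n / (32 * n * nL n) + 1) := this
      _ = _ := by ring
  nlinarith

lemma NumData.a_le (_ : NumData r n) : na r n * (32 * n * nL n) ≤ nK r n := by
  unfold na
  exact Nat.div_mul_le_self _ _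

lemma NumData.c4 (h : NumData r n) (hK : 2 ^ (3 * nw r) ≤ nK r n) :
    n * nK r n ≤ na r n * nB n := by
  have h1 := h.a_ge hK
  unfold nB
  calc n * nK r n ≤ n * (na r n * (64 * n * nL n)) := Nat.mul_le_mul_left _ h1
    _ = na r n * (64 * n ^ 2 * nL n) := by ring

/-- `C(n, r + 1) ≤ 2 C(n, r)` -/
lemma NumData.choose_le (h : NumData r n) : n.choose (r + 1) ≤ 2 * nK r n := by
  have h1 := Nat.choose_succ_right_eq n r
  have h2 := h.t_le
  have h3 : n.choose (r + 1) * (r + 1) ≤ 2 * nK r n * (r + 1) := by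
    rw [h1]
    unfold nK
    have h4 : n - r ≤ 2 * (r + 1) := by omega
    calc n.choose r * (n - r) ≤ n.choose r * (2 * (r + 1)) := Nat.mul_le_mul_left _ h4
      _ = 2 * n.choose r * (r + 1) := by ring
  exact Nat.le_of_mul_le_mul_right h3 (by omega)

lemma NumData.c3 (h : NumData r n) (hK : 2 ^ (3 * nw r) ≤ nK r n) :
    ns r n * n.choose (r + 1) ≤ na r n * (4 * nw r * nw r - (r + 1)) := by
  have h1 := h.a_ge hK
  have h2 := h.choose_le
  have h3 := h.s_le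
  have h4 := h.t_le
  have h5 := nw_spec r
  have h6 := h.w_big
  have h7 := h.one_le_L
  have h8 := h.c2
  have key : 128 * ns r n * n * nL n ≤ 4 * nw r * nw r - (r + 1) := by
    have h9 : 128 * ns r n * n * nL n * 100000 ≤ 128 * n * (2 * r) := by
      calc 128 * ns r n * n * nL n * 100000 = 128 * n * (ns r n * (100000 * nL n)) := by ring
        _ ≤ 128 * n * (2 * r) := Nat.mul_le_mul_left _ h3
    have h10 : 128 * n * (2 * r) ≤ 768 * r * r := by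
      have : n ≤ 3 * r := by omega
      nlinarith
    have h11 : 768 * r * r ≤ (4 * nw r * nw r - (r + 1)) * 100000 := by
      obtain ⟨q, hq⟩ : ∃ q, 4 * nw r * nw r = (r + 1) + q := ⟨4 * nw r * nw r - (r + 1), by omega⟩
      rw [hq, Nat.add_sub_cancel_left]
      nlinarith
    have h12 := (h9.trans h10).trans h11
    exact Nat.le_of_mul_le_mul_right h12 (by norm_num)
  calc ns r n * n.choose (r + 1) ≤ ns r n * (2 * nK r n) := Nat.mul_le_mul_left _ h2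
    _ ≤ ns r n * (2 * (na r n * (64 * n * nL n))) :=
        Nat.mul_le_mul_left _ (Nat.mul_le_mul_left _ h1)
    _ = na r n * (128 * ns r n * n * nL n) := by ring
    _ ≤ na r n * (4 * nw r * nw r - (r + 1)) := Nat.mul_le_mul_left _ key

lemma NumData.c5 (h : NumData r n) {j : ℕ} (hj : j + 1 ≤ n) :
    8 * (j + 1) * 2 ^ nl n ≤ 3 ^ nl n := by
  unfold nl
  rw [pow_mul, pow_mul]
  have h1 : (8 : ℕ) ^ (nL n + 3) ≤ (3 ^ 2) ^ (nL n + 3) := Nat.pow_le_pow_left (by norm_num) _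
  have h2 : 8 * (j + 1) ≤ 2 ^ (nL n + 3) := by
    rw [pow_add]
    have := h.n_lt
    omega
  calc 8 * (j + 1) * (2 ^ 2) ^ (nL n + 3) ≤ 2 ^ (nL n + 3) * (2 ^ 2) ^ (nL n + 3) :=
        Nat.mul_le_mul_right _ h2
    _ = 8 ^ (nL n + 3) := by rw [← mul_pow]; norm_num
    _ ≤ _ := h1

lemma fact_le_two_pow {n L : ℕ} (h : n < 2 ^ L) : n.factorial ≤ 2 ^ (L * n) := by
  calc n.factorial ≤ n ^ n := Nat.factorial_le_pow n
    _ ≤ (2 ^ L) ^ n := Nat.pow_le_pow_left h.le n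
    _ = 2 ^ (L * n) := by rw [← pow_mul]

lemma NumData.c7 (h : NumData r n) (hK : 2 ^ (3 * nw r) ≤ nK r n) {j G E₂ : ℕ}
    (hj : j + 2 ≤ n) (hG : 2 ^ (nw r - 4) * G ≤ (4 * nw r + 8) * nK r n)
    (hE : E₂ ≤ (4 * nw r + 2) * G) :
    12 * (j + 2) * 2 ^ n * ((3 * nB n) ^ na r n * 2 ^ E₂) * n.factorial
      < 2 ^ (nK r n / n) := by
  have hL := h.one_le_L
  have hL10 := h.L_ge10
  have hn := h.n_pos
  have hnl := h.n_lt
  have hw := nw_spec r
  have hwb := h.w_big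
  have hlo := h.n_lo
  -- the exponents
  have e1 : 12 * (j + 2) ≤ 2 ^ (4 + nL n) := by rw [pow_add]; omega
  have e2 : (3 * nB n) ^ na r n ≤ 2 ^ ((3 * nL n + 8) * na r n) := by
    rw [pow_mul]
    apply Nat.pow_le_pow_left
    unfold nB
    have h2 : nL n ≤ 2 ^ nL n := Nat.lt_two_pow_self.le
    calc 3 * (64 * n ^ 2 * nL n) = 192 * (n ^ 2 * nL n) := by ring
      _ ≤ 2 ^ 8 * ((2 ^ nL n) ^ 2 * 2 ^ nL n) :=
          Nat.mul_le_mul (by norm_num) (Nat.mul_le_mul (Nat.pow_le_pow_left hnl.le 2) h2)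
      _ = 2 ^ (3 * nL n + 8) := by
          rw [← pow_mul, ← pow_add, ← pow_add]; congr 1; ring
  have e3 := fact_le_two_pow hnl
  have hprod : 12 * (j + 2) * 2 ^ n * ((3 * nB n) ^ na r n * 2 ^ E₂) * n.factorial
      ≤ 2 ^ ((4 + nL n) + n + ((3 * nL n + 8) * na r n + E₂) + nL n * n) := by
    rw [pow_add, pow_add, pow_add, pow_add _ ((3 * nL n + 8) * na r n)]
    exact Nat.mul_le_mul (Nat.mul_le_mul (Nat.mul_le_mul_right _ e1) (Nat.mul_le_mul_right _ e2)) e3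
  refine lt_of_le_of_lt hprod ?_
  apply Nat.pow_lt_pow_right (by norm_num)
  -- bounds of the three parts
  have f1 : (3 * nL n + 8) * na r n * (8 * n) ≤ nK r n := by
    calc (3 * nL n + 8) * na r n * (8 * n) ≤ (4 * nL n) * na r n * (8 * n) := by
          apply Nat.mul_le_mul_right
          apply Nat.mul_le_mul_right
          omega
      _ = na r n * (32 * n * nL n) := by ring
      _ ≤ nK r n := h.a_le
  have f2 : E₂ * (8 * n) ≤ nK r n := by
    have g1 : (4 * nw r + 2) * (4 * nw r + 8) * (8 * n) ≤ 2 ^ (nw r - 4) := by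
      have g2 : 4 * nw r + 8 ≤ n := by omega
      calc (4 * nw r + 2) * (4 * nw r + 8) * (8 * n) ≤ n * n * (8 * n) :=
            Nat.mul_le_mul_right _ (Nat.mul_le_mul (by omega) g2)
        _ = 8 * n ^ 3 := by ring
        _ ≤ 2 ^ 3 * (2 ^ nL n) ^ 3 := Nat.mul_le_mul (by norm_num) (Nat.pow_le_pow_left hnl.le 3)
        _ = 2 ^ (3 * nL n + 3) := by rw [← pow_mul, ← pow_add]; congr 1; ring
        _ ≤ 2 ^ (nw r - 4) := Nat.pow_le_pow_right (by norm_num) (by omega)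
    have g3 : 2 ^ (nw r - 4) * (E₂ * (8 * n)) ≤ 2 ^ (nw r - 4) * nK r n := by
      calc 2 ^ (nw r - 4) * (E₂ * (8 * n)) ≤ 2 ^ (nw r - 4) * (((4 * nw r + 2) * G) * (8 * n)) :=
            Nat.mul_le_mul_left _ (Nat.mul_le_mul_right _ hE)
        _ = (2 ^ (nw r - 4) * G) * ((4 * nw r + 2) * (8 * n)) := by ring
        _ ≤ ((4 * nw r + 8) * nK r n) * ((4 * nw r + 2) * (8 * n)) := Nat.mul_le_mul_right _ hG
        _ = ((4 * nw r + 2) * (4 * nw r + 8) * (8 * n)) * nK r n := by ring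
        _ ≤ 2 ^ (nw r - 4) * nK r n := Nat.mul_le_mul_right _ g1
    exact Nat.le_of_mul_le_mul_left g3 (by positivity)
  have hKb := h.K_big' hK
  have f3 : ((4 + nL n) + n + nL n * n) * (8 * n) ≤ nK r n := by
    refine le_trans ?_ hKb
    have g1 : (4 + nL n) + n + nL n * n ≤ 7 * (nL n * n) := by nlinarith
    calc ((4 + nL n) + n + nL n * n) * (8 * n) ≤ 7 * (nL n * n) * (8 * n) :=
          Nat.mul_le_mul_right _ g1
      _ = n ^ 2 * nL n * 56 := by ring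
      _ ≤ n ^ 5 * nL n * 2 ^ 10 :=
          Nat.mul_le_mul (Nat.mul_le_mul_right _ (Nat.pow_le_pow_right hn (by norm_num)))
            (by norm_num)
  have f4 : 8 * n ≤ nK r n := by
    refine le_trans ?_ hKb
    calc 8 * n = n * 1 * 8 := by ring
      _ ≤ n ^ 5 * nL n * 2 ^ 10 :=
          Nat.mul_le_mul (Nat.mul_le_mul (Nat.le_self_pow (by norm_num) n) hL) (by norm_num)
  rw [← Nat.succ_le_iff, Nat.le_div_iff_mul_le (by omega)]
  nlinarith

end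

end Pool.Agent.Work.MP_f3d170_co_h78
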