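import Mathlib
import Pool.Agent.Work.MP_f3d170_co_h78.Interface
import Pool.Agent.Work.MP_f3d170_co_h78.Num

/-! Assembly for MP_f3d170_co (note 2894). -/

set_option autoImplicit false

open Set Matroid
open Pool.Agent.Work.MP_f3d170_co_h45

namespace Pool.Agent.Work.MP_f3d170_co_h78

/-- sets with at least `n - m` elements correspond to sets with at most `m` elements -/
lemma ncard_compl_sets {n k m : ℕ} (h : n ≤ k + m) :
    {H : Set (Fin n) | k ≤ H.ncard}.ncard ≤ {Z : Set (Fin n) | Z.ncard ≤ m}.ncard := by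
  refine Set.ncard_le_ncard_of_injOn (fun H => Hᶜ) ?_ (fun _ _ _ _ h => compl_injective h)
    (Set.toFinite _)
  intro H hH
  have h1 := Set.ncard_add_ncard_compl H
  rw [Nat.card_fin] at h1
  simp only [Set.mem_setOf_eq] at hH ⊢
  omega

lemma ncard_low_mono {n m m' : ℕ} (h : m ≤ m') :
    {Z : Set (Fin n) | Z.ncard ≤ m}.ncard ≤ {Z : Set (Fin n) | Z.ncard ≤ m'}.ncard :=
  Set.ncard_le_ncard (fun _ hZ => le_trans hZ h) (Set.toFinite _)

/-- The dual statement: more bases than hyperplanes. -/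
theorem dual_main (hBAD : Stmt_BAD) (hLOWER : Stmt_LOWER) (hFIN : Stmt_FIN) (hUPS : Stmt_UPS)
    (hLOWS : Stmt_LOWS) {r n j : ℕ} (hn : n = r + (j + 1)) (h : NumData r n)
    (𝒩 : Finset (RankMatroid n (j + 1))) (h𝒩 : IsTransversal 𝒩) :
    ∑ M ∈ 𝒩, (flatsOf M.1 j).ncard < ∑ M ∈ 𝒩, numBases M.1 := by
  have hlo := h.n_lo
  have ht := h.t_le
  have hr := h.r_pos
  have hw4 := h.w4
  have hwb := h.w_big
  have hL := h.one_le_L
  have hw := nw_spec r
  obtain ⟨hG, hK6⟩ := hLOWS n (nw r) r hw4 hw.1 hlo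
  have hK : 2 ^ (3 * nw r) ≤ nK r n := K_ge hK6
  have hG' := G_le hw4 hG
  have hKj : n.choose (j + 1) = nK r n := by
    unfold nK
    rw [hn, Nat.choose_symm_add]
  have hCj : n.choose j = n.choose (r + 1) := by
    have : n = (r + 1) + j := by omega
    rw [this, Nat.choose_symm_add]
  have hnj : n - j = r + 1 := by omega
  have hB := hBAD n j r (4 * nw r * nw r) (4 * nw r) (4 * nw r) (nw r) (nl n) (ns r n) (na r n)
    (nB n) hn (by omega) (by
      apply Nat.mul_le_mul_right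
      omega) h.c1 (by
      unfold ns
      omega) (by rw [hnj]; exact h.c2) (by rw [hnj, hCj]; exact h.c3 hK) (by
      refine (hUPS n (j + 1) (by omega) (by omega)).trans ?_
      rw [hKj]
      exact h.c4 hK) (by
      unfold nB
      have := h.n_pos
      have : 0 < 64 * n ^ 2 * nL n := by positivity
      omega)
  refine hFIN n j (nl n) _ 𝒩 h𝒩 (by omega) hB (h.c5 (by omega)) ?_
  refine lt_of_lt_of_le ?_ (hLOWER n j (by omega))
  rw [hKj]
  refine h.c7 hK (by omega) hG' ?_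
  have e1 : {H : Set (Fin n) | j + 1 + 4 * nw r ≤ H.ncard}.ncard ≤
      {Z : Set (Fin n) | Z.ncard ≤ 4 * nw r + 7}.ncard := ncard_compl_sets (by omega)
  have e2 : {Z : Set (Fin n) | Z.ncard ≤ 4 * nw r}.ncard ≤
      {Z : Set (Fin n) | Z.ncard ≤ 4 * nw r + 7}.ncard := ncard_low_mono (by omega)
  calc {H : Set (Fin n) | j + 1 + 4 * nw r ≤ H.ncard}.ncard +
        (4 * nw r + 1) * {Z : Set (Fin n) | Z.ncard ≤ 4 * nw r}.ncard
      ≤ {Z : Set (Fin n) | Z.ncard ≤ 4 * nw r + 7}.ncard +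
        (4 * nw r + 1) * {Z : Set (Fin n) | Z.ncard ≤ 4 * nw r + 7}.ncard :=
        Nat.add_le_add e1 (Nat.mul_le_mul_left _ e2)
    _ = (4 * nw r + 2) * {Z : Set (Fin n) | Z.ncard ≤ 4 * nw r + 7}.ncard := by ring

/-- The primal statement for one pair. -/
theorem primal_main (hBAD : Stmt_BAD) (hLOWER : Stmt_LOWER) (hFIN : Stmt_FIN) (hUPS : Stmt_UPS)
    (hLOWS : Stmt_LOWS) {r n : ℕ} (h : NumData r n)
    (𝒩 : Finset (RankMatroid n r)) (h𝒩 : IsTransversal 𝒩) :
    ∑ M ∈ 𝒩, numCircuits M.1 < ∑ M ∈ 𝒩, numBases M.1 := by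
  have hlo := h.n_lo
  obtain ⟨j, hj⟩ : ∃ j, n = r + (j + 1) := ⟨n - r - 1, by omega⟩
  obtain ⟨𝒩', h', hs⟩ := h𝒩.dual (k := j + 1) hj.symm
  have h1 := dual_main hBAD hLOWER hFIN hUPS hLOWS hj h 𝒩' h'
  rw [hs (fun N => (flatsOf N.1 j).ncard), hs (fun N => numBases N.1)] at h1
  have e1 : ∀ M : RankMatroid n r, (flatsOf (dualRM hj.symm M).1 j).ncard = numCircuits M.1 := by
    intro M
    rw [← numCircuits_dual (dualRM hj.symm M).2.1 (dualRM hj.symm M).2.2]
    simp [dualRM]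
  have e2 : ∀ M : RankMatroid n r, numBases (dualRM hj.symm M).1 = numBases M.1 := by
    intro M
    exact numBases_dual M.2.1
  simp only [e1, e2] at h1
  exact h1

/-- The theorem: more bases than circuits for `n ≤ 2 r + c r / log r`. -/
theorem final_main (hBAD : Stmt_BAD) (hLOWER : Stmt_LOWER) (hFIN : Stmt_FIN) (hUPS : Stmt_UPS)
    (hLOWS : Stmt_LOWS) : ∃ c : ℝ, 0 < c ∧ ∃ r₀ : ℕ, ∀ r n : ℕ, r₀ ≤ r → r ≤ n →
    (n : ℝ) ≤ 2 * r + c * (r / Real.log r) →
    ∀ 𝒩 : Finset (RankMatroid n r), IsTransversal 𝒩 →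
      ∑ M ∈ 𝒩, numCircuits M.1 < ∑ M ∈ 𝒩, numBases M.1 := by
  obtain ⟨r₀, hr₀⟩ := exists_numData
  refine ⟨1 / 10 ^ 6, by norm_num, max r₀ 1000, fun r n hr hrn hn 𝒩 h𝒩 => ?_⟩
  rcases Nat.lt_or_ge (2 * r) n with hlt | hge
  · refine primal_main hBAD hLOWER hFIN hUPS hLOWS (hr₀ r n (le_trans (le_max_left _ _) hr) hlt ?_)
      𝒩 h𝒩
    have hr1 : 1000 ≤ r := le_trans (le_max_right _ _) hr
    have hrR : (1000 : ℝ) ≤ r := by exact_mod_cast hr1
    have hlog : 1 ≤ Real.log r := by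
      rw [Real.le_log_iff_exp_le (by linarith)]
      have := Real.exp_one_lt_d9
      linarith
    have hlogp : 0 < Real.log r := by linarith
    have h1 : ((n - 2 * r : ℕ) : ℝ) ≤ 1 / 10 ^ 6 * (r / Real.log r) := by
      rw [Nat.cast_sub hlt.le]
      push_cast
      linarith
    have hn3 : n ≤ 3 * r := by
      have : (n : ℝ) ≤ 3 * r := by
        have h2 : (r : ℝ) / Real.log r ≤ r := div_le_self (by linarith) hlog
        linarith
      exact_mod_cast this
    have h2 : (((Nat.log 2 n + 1 : ℕ)) : ℝ) ≤ 5 * Real.log r := by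
      have h3 : (2 : ℝ) ^ Nat.log 2 n ≤ (r : ℝ) ^ 2 := by
        have h4 : 2 ^ Nat.log 2 n ≤ n := Nat.pow_log_le_self 2 (by omega)
        have h5 : n ≤ r ^ 2 := by nlinarith
        exact_mod_cast h4.trans h5
      have h6 : (Nat.log 2 n : ℝ) * Real.log 2 ≤ 2 * Real.log r := by
        have := Real.log_le_log (by positivity) h3
        rw [Real.log_pow, Real.log_pow] at this
        exact_mod_cast this
      have h7 : (1 / 2 : ℝ) ≤ Real.log 2 := by
        have := Real.log_two_gt_d9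
        linarith
      push_cast
      have h8 : (Nat.log 2 n : ℝ) * (1 / 2) ≤ (Nat.log 2 n : ℝ) * Real.log 2 :=
        mul_le_mul_of_nonneg_left h7 (by positivity)
      linarith
    have h9 : ((n - 2 * r : ℕ) : ℝ) * (100000 * ((Nat.log 2 n + 1 : ℕ) : ℝ)) ≤ r := by
      calc ((n - 2 * r : ℕ) : ℝ) * (100000 * ((Nat.log 2 n + 1 : ℕ) : ℝ))
          ≤ (1 / 10 ^ 6 * (r / Real.log r)) * (100000 * (5 * Real.log r)) := by
            apply mul_le_mul h1 (mul_le_mul_of_nonneg_left h2 (by norm_num)) (by positivity)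
            positivity
        _ = r / 2 := by field_simp; ring
        _ ≤ r := by linarith
    exact_mod_cast h9
  · exact main_lt hrn hge h𝒩

end Pool.Agent.Work.MP_f3d170_co_h78
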