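import Pool.Agent.Work.MP_f3d170_co_h78.Interface

set_option autoImplicit false

namespace Pool.Agent.Work.MP_f3d170_co_h78

theorem LOWS_step (n i : ℕ) (h : 5 * i + 3 ≤ 2 * n) :
    3 * n.choose i ≤ 2 * n.choose (i + 1) := by
  have e := Nat.choose_succ_right_eq n i
  have h2 : 3 * (i + 1) ≤ 2 * (n - i) := by omega
  have h3 : (3 * n.choose i) * (i + 1) ≤ (2 * n.choose (i + 1)) * (i + 1) := by
    calc (3 * n.choose i) * (i + 1) = n.choose i * (3 * (i + 1)) := by ring
      _ ≤ n.choose i * (2 * (n - i)) := Nat.mul_le_mul_left _ h2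
      _ = 2 * (n.choose i * (n - i)) := by ring
      _ = 2 * (n.choose (i + 1) * (i + 1)) := by rw [e]
      _ = _ := by ring
  exact Nat.le_of_mul_le_mul_right h3 (Nat.succ_pos i)

theorem LOWS_pow (n i d : ℕ) (h : 5 * (i + d) ≤ 2 * n + 2) :
    3 ^ d * n.choose i ≤ 2 ^ d * n.choose (i + d) := by
  induction d with
  | zero => simp
  | succ d ih =>
    have h1 := ih (by omega)
    have h2 := LOWS_step n (i + d) (by omega)
    calc 3 ^ (d + 1) * n.choose i = 3 * (3 ^ d * n.choose i) := by ring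
      _ ≤ 3 * (2 ^ d * n.choose (i + d)) := Nat.mul_le_mul_left _ h1
      _ = 2 ^ d * (3 * n.choose (i + d)) := by ring
      _ ≤ 2 ^ d * (2 * n.choose (i + d + 1)) := Nat.mul_le_mul_left _ h2
      _ = 2 ^ (d + 1) * n.choose (i + (d + 1)) := by rw [← Nat.add_assoc]; ring

theorem LOWS_mono (n a b : ℕ) (hab : a ≤ b) (h : 2 * b ≤ n) : n.choose a ≤ n.choose b := by
  induction b, hab using Nat.le_induction with
  | base => exact le_rfl
  | succ b hb ih =>
    exact (ih (by omega)).trans (Nat.choose_le_succ_of_lt_half_left (by omega))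

theorem LOWS_card (n m : ℕ) :
    {Z : Set (Fin n) | Z.ncard ≤ m}.ncard ≤ ∑ i ∈ Finset.range (m + 1), n.choose i := by
  classical
  have h1 : {Z : Set (Fin n) | Z.ncard ≤ m} ⊆
      ((Finset.range (m + 1)).biUnion
        (fun i => (Finset.powersetCard i (Finset.univ : Finset (Fin n))).image
          (fun s : Finset (Fin n) => (s : Set (Fin n)))) : Finset (Set (Fin n))) := by
    intro Z hZ
    have hZ' : Z.ncard ≤ m := hZ
    rw [Finset.mem_coe, Finset.mem_biUnion]
    refine ⟨Z.ncard, Finset.mem_range.2 (by omega), ?_⟩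
    rw [Finset.mem_image]
    refine ⟨(Set.toFinite Z).toFinset, ?_, (Set.toFinite Z).coe_toFinset⟩
    rw [Finset.mem_powersetCard]
    exact ⟨Finset.subset_univ _, (Set.ncard_eq_toFinset_card Z (Set.toFinite Z)).symm⟩
  have h2 := Set.ncard_le_ncard h1 (Finset.finite_toSet _)
  rw [Set.ncard_coe_finset] at h2
  refine h2.trans (Finset.card_biUnion_le.trans (Finset.sum_le_sum fun i _ => ?_))
  refine Finset.card_image_le.trans ?_
  rw [Finset.card_powersetCard, Finset.card_univ, Fintype.card_fin]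

theorem stmt_LOWS : Stmt_LOWS := by
  intro n w r hw hr hn
  constructor
  · have hc := LOWS_card n (4 * w + 7)
    have hs : ∀ i ∈ Finset.range (4 * w + 7 + 1),
        3 ^ (2 * w - 7) * n.choose i ≤ 2 ^ (2 * w - 7) * n.choose r := by
      intro i hi
      rw [Finset.mem_range] at hi
      have h1 := LOWS_pow n i (2 * w - 7) (by omega)
      have h2 := LOWS_mono n (i + (2 * w - 7)) r (by omega) (by omega)
      exact h1.trans (Nat.mul_le_mul_left _ h2)
    calc 3 ^ (2 * w - 7) * {Z : Set (Fin n) | Z.ncard ≤ 4 * w + 7}.ncard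
        ≤ 3 ^ (2 * w - 7) * ∑ i ∈ Finset.range (4 * w + 7 + 1), n.choose i :=
          Nat.mul_le_mul_left _ hc
      _ = ∑ i ∈ Finset.range (4 * w + 7 + 1), 3 ^ (2 * w - 7) * n.choose i :=
          Finset.mul_sum _ _ _
      _ ≤ ∑ _i ∈ Finset.range (4 * w + 7 + 1), 2 ^ (2 * w - 7) * n.choose r :=
          Finset.sum_le_sum hs
      _ = (4 * w + 8) * (2 ^ (2 * w - 7) * n.choose r) := by
          rw [Finset.sum_const, Finset.card_range, smul_eq_mul]
  · have h1 := LOWS_pow n 0 (6 * w) (by omega)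
    have h2 := LOWS_mono n (0 + 6 * w) r (by omega) (by omega)
    rw [Nat.choose_zero_right, mul_one] at h1
    exact h1.trans (Nat.mul_le_mul_left _ h2)

end Pool.Agent.Work.MP_f3d170_co_h78
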