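import Mathlib
import Pool.Agent.Work.MP_f3d170_co_h45.Defs
import Pool.Agent.Work.MP_f3d170_co_h78.All

set_option autoImplicit false

open Pool.Agent.Work.MP_f3d170_co_h45

/-- Let `B(n,r)` and `C(n,r)` be the total numbers of bases and of circuits of the matroids of
rank `r` with `n` elements, one matroid `M` for each isomorphism class (the set `𝒩`).  Then
`C(n,r) < B(n,r)` for all large `r` and all `r ≤ n ≤ 2 r + c r / log r`. -/
theorem Pool.Agent.Results.MP_f3d170_co.BeyondHalfRank.result :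
    (∀ n r : ℕ, r ≤ n → ∃ 𝒩 : Finset (RankMatroid n r), IsTransversal 𝒩) ∧
    ∃ c : ℝ, 0 < c ∧ ∃ r₀ : ℕ, ∀ r n : ℕ, r₀ ≤ r → r ≤ n →
      (n : ℝ) ≤ 2 * r + c * (r / Real.log r) →
      ∀ 𝒩 : Finset (RankMatroid n r), IsTransversal 𝒩 →
        ∑ M ∈ 𝒩, numCircuits M.1 < ∑ M ∈ 𝒩, numBases M.1 :=
  ⟨fun n r _ => exists_transversal n r, Pool.Agent.Work.MP_f3d170_co_h78.all_main⟩
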